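import Pool.Agent.FCW.Tame

/-!
For tame words the question is about infinite simple groups.
-/

set_option autoImplicit false

universe u

namespace Pool.Agent.FCW

variable {n : ℕ} {w : FreeGroup (Fin n)}

theorem centralizer_finiteIndex_of_fc {H : Type u} [Group H] (x : H)
    (hx : {c | ∃ y : H, c = y * x * y⁻¹}.Finite) :
    (Subgroup.centralizer {x} : Subgroup H).FiniteIndex := by
  have hfin : Finite {c | ∃ y : H, c = y * x * y⁻¹} := hx
  have h1 : Finite (H ⧸ (Subgroup.centralizer {x} : Subgroup H)) := by
    refine Finite.of_injective (β := {c | ∃ y : H, c = y * x * y⁻¹})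
      (fun q => ⟨q.out * x * q.out⁻¹, q.out, rfl⟩) ?_
    intro p q hpq
    have h2 : p.out * x * p.out⁻¹ = q.out * x * q.out⁻¹ :=
      congrArg (fun t : {c | ∃ y : H, c = y * x * y⁻¹} => (t : H)) hpq
    have h3 : p.out⁻¹ * q.out ∈ (Subgroup.centralizer {x} : Subgroup H) := by
      rw [Subgroup.mem_centralizer_iff]
      intro y hy
      rw [Set.mem_singleton_iff] at hy
      subst hy
      have h4 : y * p.out⁻¹ = p.out⁻¹ * (q.out * y * q.out⁻¹) := by
        rw [← h2]
        group
      calc y * (p.out⁻¹ * q.out) = (y * p.out⁻¹) * q.out := by group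
        _ = p.out⁻¹ * (q.out * y * q.out⁻¹) * q.out := by rw [h4]
        _ = p.out⁻¹ * q.out * y := by group
    have h5 : (QuotientGroup.mk p.out : H ⧸ (Subgroup.centralizer {x} : Subgroup H)) =
        QuotientGroup.mk q.out := QuotientGroup.eq.2 h3
    rwa [QuotientGroup.out_eq', QuotientGroup.out_eq'] at h5
  exact Subgroup.finiteIndex_of_finite_quotient

/-- An infinite simple group is not commutative. -/
theorem not_comm_of_simple (H : Type u) [Group H] [hi : Infinite H] [hs : IsSimpleGroup H] :
    ¬ ∀ a b : H, a * b = b * a := by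
  intro hc
  let _ : CommGroup H := { ‹Group H› with mul_comm := hc }
  have h1 : (Nat.card H).Prime := CommGroup.is_simple_iff_prime_card.1 hs
  exact not_finite_iff_infinite.2 hi (Nat.finite_of_card_ne_zero h1.ne_zero)

/-- In a tame variety no infinite simple group satisfies the law. -/
theorem not_law_of_simple (hV : Tame.{u} w) (H : Type u) [Group H] [hi : Infinite H]
    [hs : IsSimpleGroup H] : ¬ Law w H := by
  intro hl
  obtain ⟨L, hLc, hLi, hL⟩ := hV H hl
  have hLn : L.Normal := inferInstance
  have hLt : L = ⊤ := by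
    rcases hLn.eq_bot_or_eq_top with h1 | h1
    · exfalso
      rw [h1] at hLi
      exact not_finite_iff_infinite.2 hLi inferInstance
    · exact h1
  rcases hL with hL | hL
  · rw [hLt] at hL
    have h2 : Group.IsSolvable H :=
      Group.isSolvable_of_surjective (f := (⊤ : Subgroup H).subtype) fun x => ⟨⟨x, trivial⟩, rfl⟩
    exact not_comm_of_simple H (IsSimpleGroup.comm_iff_isSolvable.2 h2)
  · apply not_comm_of_simple H
    intro a b
    have h1 : {c | ∃ y : H, c = y * a * y⁻¹}.Finite := by
      refine (hL a (by rw [hLt]; trivial)).subset ?_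
      rintro c ⟨y, hy⟩
      exact ⟨y, by rw [hLt]; trivial, hy⟩
    have h2 := centralizer_finiteIndex_of_fc a h1
    have h3 : (Subgroup.centralizer {a} : Subgroup H).normalCore = ⊤ := by
      rcases (inferInstance : ((Subgroup.centralizer {a} : Subgroup H).normalCore).Normal).eq_bot_or_eq_top
        with h4 | h4
      · exfalso
        have h5 : ((Subgroup.centralizer {a} : Subgroup H).normalCore).FiniteIndex := inferInstance
        have h6 := infinite_of_finiteIndex _ h5
        rw [h4] at h6
        exact h6 (by rw [Subgroup.coe_bot]; exact Set.finite_singleton _)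
      · exact h4
    have h4 : b ∈ (Subgroup.centralizer {a} : Subgroup H) :=
      Subgroup.normalCore_le _ (by rw [h3]; trivial)
    exact Subgroup.mem_centralizer_iff.1 h4 a rfl

theorem tame_of_soluble (h : ∀ (K : Type u) [Group K], Law w K → Group.IsSolvable K) :
    Tame.{u} w := by
  intro K _ hi hl
  have h1 := h K hl
  refine ⟨⊤, inferInstance, Subgroup.topEquiv.toEquiv.infinite_iff.2 hi, Or.inl inferInstance⟩

/-- For tame words: a counterexample exists if and only if an infinite simple group is in the class. -/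
theorem tame_iff (hV : Tame.{u} w) {P : ∀ (G : Type u) [Group G], Prop}
    (hP : (∀ (G : Type u) [Group G], P G → Star w G) ∧
      (∀ (G : Type u) [Group G] (H : Type u) [Group H], P G → Sec G H → Star w H →
        (Sharp w G → Sharp w H) → P H)) :
    (∃ (G : Type u) (_ : Group G), Infinite G ∧ P G ∧ ¬ Law w G) ↔
    ∃ (H : Type u) (_ : Group H), Infinite H ∧ Countable H ∧ IsSimpleGroup H ∧ P H := by
  constructor
  · rintro ⟨G, iG, hi, hG, h⟩
    obtain ⟨H, iH, h1, h2, h3, h4, h5, h6, h7, h8⟩ := reduce_final (w := w) G (hP.1 G hG) h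
    exact ⟨H, iH, h3, h2, simple_of_tame hV h3 h4 h6 h8, hP.2 G H hG h1 h4 h5⟩
  · rintro ⟨H, iH, hi, -, hs, hH⟩
    exact ⟨H, iH, hi, hH, not_law_of_simple hV H⟩

end Pool.Agent.FCW
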