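import Pool.Agent.FCW.Mono

/-!
Reduced counterexamples.
-/

set_option autoImplicit false

universe u

namespace Pool.Agent.FCW

variable {n : ℕ} {w : FreeGroup (Fin n)}

/-- `H` is a quotient of a subgroup of `G` by a finite normal subgroup. -/
def Sec (G H : Type u) [Group G] [Group H] : Prop :=
  ∃ (K : Subgroup G) (f : K →* H), Function.Surjective f ∧ Finite f.ker

theorem Sec.of_sub {G : Type u} [Group G] (K : Subgroup G) : Sec G K := by
  refine ⟨K, MonoidHom.id _, Function.surjective_id, ?_⟩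
  have h1 : (MonoidHom.id K).ker = ⊥ := (MonoidHom.ker_eq_bot_iff _).2 Function.injective_id
  rw [h1]
  infer_instance

theorem Sec.rfl' {G : Type u} [Group G] : Sec G G := by
  refine ⟨⊤, (⊤ : Subgroup G).subtype, fun x => ⟨⟨x, trivial⟩, rfl⟩, ?_⟩
  rw [Subgroup.ker_subtype]
  infer_instance

theorem Sec.of_quot {G : Type u} [Group G] (N : Subgroup G) [N.Normal] (hN : Finite N) :
    Sec G (G ⧸ N) := by
  refine ⟨⊤, (QuotientGroup.mk' N).comp (⊤ : Subgroup G).subtype, ?_, ?_⟩
  · intro y
    obtain ⟨x, rfl⟩ := QuotientGroup.mk'_surjective N y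
    exact ⟨⟨x, trivial⟩, rfl⟩
  · refine Finite.of_injective (β := N) (fun x => ⟨((x : (⊤ : Subgroup G)) : G),
      (QuotientGroup.eq_one_iff _).1 x.2⟩) ?_
    intro x y hxy
    have h1 : ((x : (⊤ : Subgroup G)) : G) = ((y : (⊤ : Subgroup G)) : G) :=
      congrArg (fun t : N => (t : G)) hxy
    exact Subtype.ext (Subtype.ext h1)

theorem finite_ker_comp {A B C : Type*} [Group A] [Group B] [Group C] (f : A →* B) (g : B →* C)
    (hf : Finite f.ker) (hg : Finite g.ker) : Finite (g.comp f).ker := by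
  have h1 : ((g.comp f).ker : Set A) = f ⁻¹' (g.ker : Set B) := rfl
  have h2 : (f ⁻¹' (g.ker : Set B)).Finite := by
    refine Set.Finite.preimage' (hg : (g.ker : Set B).Finite) fun b _ => ?_
    by_cases hb : ∃ a, f a = b
    · obtain ⟨a, rfl⟩ := hb
      have hf' : (f.ker : Set A).Finite := hf
      refine (hf'.image (fun c => a * c)).subset ?_
      intro c hc
      have hc' : f c = f a := hc
      refine ⟨a⁻¹ * c, ?_, by group⟩
      show f (a⁻¹ * c) = 1
      rw [map_mul, map_inv, hc', inv_mul_cancel]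
    · refine Set.Finite.subset Set.finite_empty ?_
      intro c hc
      exact hb ⟨c, hc⟩
  exact (h1 ▸ h2 : ((g.comp f).ker : Set A).Finite)

theorem Sec.trans {G H L : Type u} [Group G] [Group H] [Group L] (h1 : Sec G H) (h2 : Sec H L) :
    Sec G L := by
  obtain ⟨K, f, hf, hfk⟩ := h1
  obtain ⟨K', f', hf', hfk'⟩ := h2
  obtain ⟨e, he⟩ : ∃ e : (K'.comap f) ≃* (K'.comap f).map K.subtype,
    e = (K'.comap f).equivMapOfInjective K.subtype K.subtype_injective := ⟨_, rfl⟩
  refine ⟨(K'.comap f).map K.subtype, (f'.comp (f.subgroupComap K')).comp e.symm.toMonoidHom,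
    ?_, ?_⟩
  · exact (hf'.comp (f.subgroupComap_surjective_of_surjective K' hf)).comp e.symm.surjective
  · refine finite_ker_comp _ _ ?_ (finite_ker_comp _ _ ?_ hfk')
    · have h3 : (e.symm.toMonoidHom).ker = ⊥ :=
        (MonoidHom.ker_eq_bot_iff _).2 e.symm.injective
      rw [h3]
      infer_instance
    · refine Finite.of_injective (β := f.ker) (fun x => ⟨((x : (K'.comap f)) : K), ?_⟩) ?_
      · exact congrArg (fun t : K' => (t : H)) x.2
      · intro x y hxy
        have h4 : ((x : (K'.comap f)) : K) = ((y : (K'.comap f)) : K) :=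
          congrArg (fun t : f.ker => (t : K)) hxy
        exact Subtype.ext (Subtype.ext h4)

/-- The kinds of reduced counterexamples. -/
def Kind4 {n : ℕ} (w : FreeGroup (Fin n)) (H : Type u) [Group H] : Prop :=
  IsSimpleGroup H ∨
  ((Nat.card (verbal w H)).Prime ∧ verbal w H ≤ Subgroup.center H) ∨
  (FinMono w H ∧ Law w (cen w H)) ∨
  (InfMono w H ∧ Law w (verbal w H))

/-- A class closed under subgroups and quotients by finite normal subgroups. -/
structure IsClassF (w : FreeGroup (Fin n)) (P : ∀ (G : Type u) [Group G], Prop) : Prop where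
  star : ∀ (G : Type u) [Group G], P G → Star w G
  sub : ∀ (G : Type u) [Group G] (H : Subgroup G), P G → P H
  quot : ∀ (G : Type u) [Group G] (N : Subgroup G) [N.Normal], Finite N → P G → P (G ⧸ N)

theorem mono_of_simple (H : Type u) [Group H] [IsSimpleGroup H] : Mono w H := by
  intro N hN hne
  rcases hN.eq_bot_or_eq_top with h1 | h1
  · exact absurd h1 hne
  · rw [h1]
    exact le_top

/-- Reduction. -/
theorem reduce_mono {P : ∀ (G : Type u) [Group G], Prop} (hP : IsClassF w P) (G : Type u) [Group G]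
    [hinf : Infinite G] (hG : P G) (h : ¬ Law w G) :
    ∃ (H : Type u) (_ : Group H), Infinite H ∧ P H ∧ ¬ Law w H ∧ Mono w H ∧ Kind4 w H := by
  obtain ⟨N, hN, hNf, hNl, hNm⟩ := exists_mono (w := w) G (hP.star G hG) h
  have h0 : P (G ⧸ N) := hP.quot G N hNf hG
  have h0i : Infinite (G ⧸ N) := infinite_quot N hNf
  rcases shape_mono (G ⧸ N) (hP.star _ h0) hNl hNm with h1 | ⟨h1, h2 | h2⟩
  · by_cases h4 : Law w (cen w (G ⧸ N))
    · exact ⟨G ⧸ N, inferInstance, h0i, h0, hNl, hNm, Or.inr (Or.inr (Or.inl ⟨h1, h4⟩))⟩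
    · obtain ⟨ha, hb, hc, hd⟩ := h1
      obtain ⟨C, hC⟩ : ∃ C, C = cen w (G ⧸ N) := ⟨_, rfl⟩
      have hCi : Infinite C := by
        rw [hC]
        exact (infinite_of_finiteIndex _ hc).to_subtype
      have hCf : Finite (verbal w C) ∧ verbal w C ≤ Subgroup.center C := by
        rw [hC]
        exact (shape_finite (G ⧸ N) (hP.star _ h0) ha).2.2
      rw [← hC] at h4
      have hPC : P C := hP.sub _ C h0
      obtain ⟨N', hN', hNf', hNl', hNm'⟩ := exists_mono (w := w) C (hP.star C hPC) h4
      have hle : verbal w (C ⧸ N') ≤ (verbal w C).map (QuotientGroup.mk' N') := by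
        rw [verbal_le_iff]
        intro g
        choose g' hg' using fun i => QuotientGroup.mk'_surjective N' (g i)
        have h6 : g = fun i => QuotientGroup.mk' N' (g' i) := (funext hg').symm
        rw [h6, ← hom_lift]
        exact ⟨_, Subgroup.subset_closure ⟨g', rfl⟩, rfl⟩
      have hcen : verbal w (C ⧸ N') ≤ Subgroup.center (C ⧸ N') := by
        intro x hx
        obtain ⟨y, hy, rfl⟩ := hle hx
        rw [Subgroup.mem_center_iff]
        intro z
        obtain ⟨z', rfl⟩ := QuotientGroup.mk'_surjective N' z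
        rw [← map_mul, ← map_mul, Subgroup.mem_center_iff.1 (hCf.2 hy) z']
      have hfin : Finite (verbal w (C ⧸ N')) := by
        have h7 : ((verbal w C : Subgroup C) : Set C).Finite := hCf.1
        have h8 : (((verbal w C).map (QuotientGroup.mk' N') : Subgroup (C ⧸ N')) :
            Set (C ⧸ N')).Finite := h7.image _
        exact h8.subset hle
      exact ⟨C ⧸ N', inferInstance, infinite_quot N' hNf', hP.quot C N' hNf' hPC, hNl', hNm',
        Or.inr (Or.inl ⟨prime_card _ hfin (verbal_ne_bot hNl') hcen hNm', hcen⟩)⟩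
  · exact ⟨G ⧸ N, inferInstance, h0i, h0, hNl, hNm, Or.inr (Or.inr (Or.inr ⟨h1, h2⟩))⟩
  · have := h2.1
    exact ⟨verbal w (G ⧸ N), inferInstance, h1.1, hP.sub _ _ h0, h2.2, mono_of_simple _,
      Or.inl h2.1⟩

/-- An infinite countable subgroup in which the law fails. -/
theorem exists_countable (G : Type u) [Group G] [hinf : Infinite G] (h : ¬ Law w G) :
    ∃ K : Subgroup G, Countable K ∧ Infinite K ∧ ¬ Law w K := by
  unfold Law at h
  push Not at h
  obtain ⟨g, hg⟩ := h
  obtain ⟨e⟩ : Nonempty (ℕ ↪ G) := ⟨Infinite.natEmbedding G⟩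
  obtain ⟨K, hK⟩ : ∃ K, K = Subgroup.closure (Set.range g ∪ Set.range e) := ⟨_, rfl⟩
  have hg1 : ∀ i, g i ∈ K := fun i => by
    rw [hK]
    exact Subgroup.subset_closure (Or.inl ⟨i, rfl⟩)
  have he1 : ∀ i, e i ∈ K := fun i => by
    rw [hK]
    exact Subgroup.subset_closure (Or.inr ⟨i, rfl⟩)
  refine ⟨K, ?_, ?_, ?_⟩
  · have : Countable (↥(Set.range g ∪ Set.range e)) := by
      rw [Set.countable_coe_iff]
      exact (Set.countable_range g).union (Set.countable_range e)
    rw [hK, FreeGroup.closure_eq_range]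
    exact (FreeGroup.lift _).rangeRestrict_surjective.countable
  · refine Infinite.of_injective (fun i : ℕ => (⟨e i, he1 i⟩ : K)) ?_
    intro i j hij
    exact e.injective (congrArg (fun t : K => (t : G)) hij)
  · intro hl
    have h1 := hl (fun i => (⟨g i, hg1 i⟩ : K))
    have h2 := hom_lift w K.subtype (fun i => (⟨g i, hg1 i⟩ : K))
    rw [h1, map_one] at h2
    exact hg h2.symm

theorem sec_class (G : Type u) [Group G] :
    IsClassF.{u} w (fun H _ => Sec G H ∧ Countable H ∧ Star w H ∧ (Sharp w G → Sharp w H)) where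
  star := fun _ _ h => h.2.2.1
  sub := fun K _ H h => ⟨h.1.trans (Sec.of_sub H), by have := h.2.1; infer_instance,
    star_class.sub K H h.2.2.1, fun hs => sharp_class.sub K H (h.2.2.2 hs)⟩
  quot := fun K _ N _ hN h => ⟨h.1.trans (Sec.of_quot N hN), by
    have := h.2.1
    exact (QuotientGroup.mk'_surjective N).countable,
    star_class.quot K N h.2.2.1, fun hs => sharp_class.quot K N (h.2.2.2 hs)⟩

/-- Reduction to a countable monolithic section. -/
theorem reduce_final (G : Type u) [Group G] [Infinite G] (hG : Star w G) (h : ¬ Law w G) :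
    ∃ (H : Type u) (_ : Group H), Sec G H ∧ Countable H ∧ Infinite H ∧ Star w H ∧
      (Sharp w G → Sharp w H) ∧ ¬ Law w H ∧ Mono w H ∧ Kind4 w H := by
  obtain ⟨K, hKc, hKi, hKl⟩ := exists_countable (w := w) G h
  obtain ⟨H, iH, h1, ⟨h2, h3, h4, h5⟩, h6, h7, h8⟩ := reduce_mono (w := w) (sec_class G) K
    ⟨Sec.of_sub K, hKc, star_class.sub G K hG, sharp_class.sub G K⟩ hKl
  exact ⟨H, iH, h2, h3, h1, h4, h5, h6, h7, h8⟩

end Pool.Agent.FCW
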