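import Mathlib

/-!
Groups with infinitely many elements whose normal closures commute pairwise: the infinite-subset
version of a group law implies the law.
-/

set_option autoImplicit false

namespace Pool.Agent.FCW

open Filter Topology

/-- Word maps and two commuting blocks: `a` centralises the normal subgroup `B`, `b` is in `B`. -/
theorem word_mul {n : ℕ} {G : Type*} [Group G] (B : Subgroup G) [hB : B.Normal]
    (g a b : Fin n → G) (ha : ∀ i, ∀ x ∈ B, a i * x = x * a i) (hb : ∀ i, b i ∈ B)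
    (w : FreeGroup (Fin n)) :
    ∃ u v : G, (∀ x ∈ B, u * x = x * u) ∧ v ∈ B ∧
      FreeGroup.lift (fun i => g i * a i) w = u * FreeGroup.lift g w ∧
      FreeGroup.lift (fun i => g i * b i) w = FreeGroup.lift g w * v ∧
      FreeGroup.lift (fun i => g i * a i * b i) w = u * FreeGroup.lift g w * v := by
  have hconj : ∀ u r : G, (∀ x ∈ B, u * x = x * u) → ∀ x ∈ B, (r * u * r⁻¹) * x = x * (r * u * r⁻¹) := by
    intro u r hu x hx
    have h1 := hu (r⁻¹ * x * r) (by simpa using hB.conj_mem x hx r⁻¹)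
    calc r * u * r⁻¹ * x = r * (u * (r⁻¹ * x * r)) * r⁻¹ := by group
      _ = r * ((r⁻¹ * x * r) * u) * r⁻¹ := by rw [h1]
      _ = x * (r * u * r⁻¹) := by group
  induction w using FreeGroup.induction_on with
  | C1 => exact ⟨1, 1, by simp, B.one_mem, by simp, by simp, by simp⟩
  | of i =>
    refine ⟨g i * a i * (g i)⁻¹, b i, hconj _ _ (ha i), hb i, ?_, ?_, ?_⟩
    · simp
    · simp
    · simp
  | inv_of i ih =>
    obtain ⟨u, v, hu, hv, h1, h2, h3⟩ := ih
    obtain ⟨r, hr⟩ : ∃ r, r = FreeGroup.lift g (FreeGroup.of i) := ⟨_, rfl⟩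
    rw [← hr] at h1 h2 h3
    have hu' : ∀ x ∈ B, u⁻¹ * x = x * u⁻¹ := by
      intro x hx
      have := hu x hx
      rw [inv_mul_eq_iff_eq_mul, ← mul_assoc, this, mul_assoc, mul_inv_cancel, mul_one]
    have hu2 := hconj u⁻¹ r⁻¹ hu'
    refine ⟨r⁻¹ * u⁻¹ * r⁻¹⁻¹, r * v⁻¹ * r⁻¹, hu2, hB.conj_mem _ (B.inv_mem hv) r, ?_, ?_, ?_⟩
    · rw [map_inv, map_inv, h1, ← hr]
      group
    · rw [map_inv, map_inv, h2, ← hr]
      group
    · rw [map_inv, map_inv, h3, ← hr]
      have h4 := hu2 (v⁻¹) (B.inv_mem hv)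
      calc (u * r * v)⁻¹ = v⁻¹ * (r⁻¹ * u⁻¹ * r⁻¹⁻¹) * r⁻¹ := by group
        _ = (r⁻¹ * u⁻¹ * r⁻¹⁻¹) * v⁻¹ * r⁻¹ := by rw [h4]
        _ = _ := by group
  | mul x y hx hy =>
    obtain ⟨u, v, hu, hv, h1, h2, h3⟩ := hx
    obtain ⟨u', v', hu', hv', h1', h2', h3'⟩ := hy
    obtain ⟨r, hr⟩ : ∃ r, r = FreeGroup.lift g x := ⟨_, rfl⟩
    obtain ⟨r', hr'⟩ : ∃ r, r = FreeGroup.lift g y := ⟨_, rfl⟩
    rw [← hr] at h1 h2 h3
    rw [← hr'] at h1' h2' h3'
    have hu2 := hconj u' r hu'
    refine ⟨u * (r * u' * r⁻¹), (r'⁻¹ * v * r') * v', ?_, ?_, ?_, ?_, ?_⟩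
    · intro b' hb'
      rw [mul_assoc, hu2 b' hb', ← mul_assoc, hu b' hb', mul_assoc]
    · refine B.mul_mem ?_ hv'
      simpa using hB.conj_mem v hv r'⁻¹
    · rw [map_mul, map_mul, h1, h1', ← hr, ← hr']
      group
    · rw [map_mul, map_mul, h2, h2', ← hr, ← hr']
      group
    · rw [map_mul, map_mul, h3, h3', ← hr, ← hr']
      have h4 := hu' v hv
      calc u * r * v * (u' * r' * v') = u * r * (v * u') * r' * v' := by group
        _ = u * r * (u' * v) * r' * v' := by rw [h4]
        _ = _ := by group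

/-- The abelian part: characters with values in the compact group `ℝ / ℤ`. -/
theorem abelian_core {Q : Type*} [AddCommGroup Q] {n : ℕ} (c : Fin n → ℕ → Q) (κ : Q)
    (h1 : ∀ J : Fin n → Set ℕ, (∀ i, (J i).Infinite) →
      ∃ m : Fin n → ℕ, (∀ i, m i ∈ J i) ∧ κ + ∑ i, c i (m i) = 0)
    (h2 : ∀ i0 m0, ∀ J : Fin n → Set ℕ, (∀ i, (J i).Infinite) →
      ∃ m : Fin n → ℕ, (∀ i, m i ∈ J i) ∧ κ + c i0 m0 + ∑ i, c i (m i) = 0) : κ = 0 := by
  by_contra hκ
  obtain ⟨χ0, hχ0⟩ := CharacterModule.exists_character_apply_ne_zero_of_ne_zero hκ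
  let e : AddCircle (1 : ℚ) →+ AddCircle (1 : ℝ) :=
    QuotientAddGroup.map (AddSubgroup.zmultiples (1 : ℚ)) (AddSubgroup.zmultiples (1 : ℝ))
      (Rat.castHom ℝ).toAddMonoidHom (by
        rintro x ⟨k, rfl⟩
        exact ⟨k, by simp⟩)
  have he : Function.Injective e := by
    rw [injective_iff_map_eq_zero]
    intro a ha
    induction a using QuotientAddGroup.induction_on with
    | H q =>
      have h3 : ((q : ℝ) : AddCircle (1 : ℝ)) = 0 := ha
      rw [AddCircle.coe_eq_zero_iff] at h3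
      obtain ⟨k, hk⟩ := h3
      refine (AddCircle.coe_eq_zero_iff (1 : ℚ)).2 ⟨k, ?_⟩
      have h4 : ((k • (1 : ℚ) : ℚ) : ℝ) = ((q : ℚ) : ℝ) := by
        rw [← hk]
        simp
      exact_mod_cast h4
  let χ : Q →+ AddCircle (1 : ℝ) := e.comp χ0
  have hχ : χ κ ≠ 0 := by
    intro h
    exact hχ0 (he (by rw [map_zero]; exact h))
  have hsub : ∀ i, ∃ a : AddCircle (1 : ℝ), ∃ φ : ℕ → ℕ, StrictMono φ ∧
      Tendsto ((fun m => χ (c i m)) ∘ φ) atTop (𝓝 a) := fun i =>
    CompactSpace.tendsto_subseq _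
  choose a φ hφ ha using hsub
  have hinf : ∀ k i, (φ i '' Set.Ici k).Infinite := fun k i =>
    (Set.Ici_infinite k).image (hφ i).injective.injOn
  -- a sequence of solutions along the subsequences
  have lim : ∀ x : Q, (∀ J : Fin n → Set ℕ, (∀ i, (J i).Infinite) →
      ∃ m : Fin n → ℕ, (∀ i, m i ∈ J i) ∧ x + ∑ i, c i (m i) = 0) → χ x + ∑ i, a i = 0 := by
    intro x hx
    have h3 : ∀ k : ℕ, ∃ p : Fin n → ℕ, (∀ i, k ≤ p i) ∧ x + ∑ i, c i (φ i (p i)) = 0 := by
      intro k
      obtain ⟨m, hm, hm2⟩ := hx (fun i => φ i '' Set.Ici k) (hinf k)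
      choose p hp hp2 using hm
      refine ⟨p, hp, ?_⟩
      rw [← hm2]
      simp only [hp2]
    choose p hp hp2 using h3
    have h4 : Tendsto (fun k => χ x + ∑ i, χ (c i (φ i (p k i)))) atTop (𝓝 (χ x + ∑ i, a i)) := by
      refine tendsto_const_nhds.add (tendsto_finsetSum _ fun i _ => ?_)
      exact (ha i).comp (tendsto_atTop_mono (fun k => hp k i) tendsto_id)
    have h5 : (fun k => χ x + ∑ i, χ (c i (φ i (p k i)))) = fun _ => (0 : AddCircle (1 : ℝ)) := by
      funext k
      rw [← map_sum, ← map_add, hp2 k, map_zero]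
    rw [h5] at h4
    exact tendsto_nhds_unique tendsto_const_nhds h4 |>.symm
  have h3 := lim κ h1
  have h4 : ∀ i0 m0, χ (c i0 m0) = 0 := by
    intro i0 m0
    have h5 := lim (κ + c i0 m0) (h2 i0 m0)
    rw [map_add, add_right_comm, h3, zero_add] at h5
    exact h5
  obtain ⟨m, -, hm⟩ := h1 (fun _ => Set.univ) (fun _ => Set.infinite_univ)
  have h6 := congrArg χ hm
  rw [map_add, map_sum, map_zero] at h6
  simp only [h4, Finset.sum_const_zero, add_zero] at h6
  exact hχ h6

/-- `w(g, z at place i)` divided by `w(g)`. -/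
noncomputable def coef {n : ℕ} {G : Type*} [Group G] (w : FreeGroup (Fin n)) (g : Fin n → G)
    (z : Fin n → ℕ → G) (i : Fin n) (m : ℕ) : G :=
  (FreeGroup.lift g w)⁻¹ * FreeGroup.lift (fun j => g j * (if j = i then z i m else 1)) w

theorem coef_mem {n : ℕ} {G : Type*} [Group G] (w : FreeGroup (Fin n)) (g : Fin n → G)
    (z : Fin n → ℕ → G) (i : Fin n) (m : ℕ) :
    coef w g z i m ∈ Subgroup.normalClosure {z i m} := by
  classical
  obtain ⟨u, v, -, hv, h1, h2, -⟩ := word_mul (Subgroup.normalClosure {z i m}) g (fun _ => 1)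
    (fun j => if j = i then z i m else 1) (fun _ x _ => by simp) (fun j => by
      split_ifs
      · exact Subgroup.subset_normalClosure rfl
      · exact Subgroup.one_mem _) w
  unfold coef
  rw [h2, inv_mul_cancel_left]
  exact hv

/-- One more place is filled. -/
theorem fill_one {n : ℕ} {G : Type*} [Group G] (w : FreeGroup (Fin n)) (g a : Fin n → G)
    (z : Fin n → ℕ → G) (i : Fin n) (m : ℕ)
    (ha : ∀ j, ∀ x ∈ Subgroup.normalClosure {z i m}, a j * x = x * a j) :
    FreeGroup.lift (fun j => g j * a j * (if j = i then z i m else 1)) w =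
      FreeGroup.lift (fun j => g j * a j) w * coef w g z i m := by
  classical
  obtain ⟨u, v, -, hv, h1, h2, h3⟩ := word_mul (Subgroup.normalClosure {z i m}) g a
    (fun j => if j = i then z i m else 1) ha (fun j => by
      split_ifs
      · exact Subgroup.subset_normalClosure rfl
      · exact Subgroup.one_mem _) w
  unfold coef
  rw [h3, h1, h2]
  group

/-- The product formula. -/
theorem product_formula {n : ℕ} {G : Type*} [Group G] (w : FreeGroup (Fin n)) (g a : Fin n → G)
    (z : Fin n → ℕ → G) (m : Fin n → ℕ)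
    (hz : ∀ i j, i ≠ j → ∀ x ∈ Subgroup.normalClosure {z i (m i)}, z j (m j) * x = x * z j (m j))
    (ha : ∀ i j, ∀ x ∈ Subgroup.normalClosure {z i (m i)}, a j * x = x * a j)
    {Q : Type*} [CommGroup Q] (ι : Q →* G) (c : Fin n → ℕ → Q)
    (hc : ∀ i, ι (c i (m i)) = coef w g z i (m i)) :
    FreeGroup.lift (fun j => g j * a j * z j (m j)) w =
      FreeGroup.lift (fun j => g j * a j) w * ι (∏ i, c i (m i)) := by
  classical
  have key : ∀ s : Finset (Fin n),
      FreeGroup.lift (fun j => g j * (a j * (if j ∈ s then z j (m j) else 1))) w =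
        FreeGroup.lift (fun j => g j * a j) w * ι (∏ i ∈ s, c i (m i)) := by
    intro s
    induction s using Finset.induction_on with
    | empty => simp
    | insert i s his ih =>
      rw [Finset.prod_insert his, mul_comm (c i (m i)), map_mul, ← mul_assoc, ← ih, hc i,
        ← fill_one w g (fun j => a j * (if j ∈ s then z j (m j) else 1)) z i (m i) ?_]
      · congr 2
        funext j
        by_cases hj : j = i
        · subst hj
          simp [his, mul_assoc]
        · simp [hj, Finset.mem_insert]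
      · intro j x hx
        show a j * (if j ∈ s then z j (m j) else 1) * x = x * (a j * (if j ∈ s then z j (m j) else 1))
        split_ifs with hj
        · have hji : i ≠ j := by
            rintro rfl
            exact his hj
          rw [mul_assoc, hz i j hji x hx, ← mul_assoc, ha i j x hx, mul_assoc]
        · rw [mul_one]
          exact ha i j x hx
  have h := key Finset.univ
  simpa [mul_assoc] using h

/-- If the normal closures of infinitely many elements commute pairwise, then the infinite-subset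
version of a law implies the law. -/
theorem law_of_commuting {n : ℕ} (w : FreeGroup (Fin n)) (G : Type*) [Group G]
    (hG : ∀ S : Fin n → Set G, (∀ i, (S i).Infinite) →
      ∃ s : Fin n → G, (∀ i, s i ∈ S i) ∧ FreeGroup.lift s w = 1)
    (f : ℕ → G) (hf : Function.Injective f)
    (hcomm : ∀ j k, j ≠ k → ∀ x ∈ Subgroup.normalClosure {f j}, ∀ y ∈ Subgroup.normalClosure {f k},
      x * y = y * x) (g : Fin n → G) : FreeGroup.lift g w = 1 := by
  classical
  set z : Fin n → ℕ → G := fun i m => f (Nat.pair i m) with hz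
  have hzc : ∀ i m j k, (i ≠ j ∨ m ≠ k) → ∀ x ∈ Subgroup.normalClosure {z i m},
      ∀ y ∈ Subgroup.normalClosure {z j k}, x * y = y * x := by
    intro i m j k h
    refine hcomm _ _ fun h1 => ?_
    rw [Nat.pair_eq_pair] at h1
    rcases h with h | h
    · exact h (Fin.ext h1.1)
    · exact h h1.2
  have hself : ∀ i m, z i m ∈ Subgroup.normalClosure {z i m} := fun i m =>
    Subgroup.subset_normalClosure rfl
  set X : Set G := Set.range (fun q : Fin n × ℕ => coef w g z q.1 q.2) with hX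
  have hXc : ∀ x ∈ X, ∀ y ∈ X, x * y = y * x := by
    rintro _ ⟨⟨i, m⟩, rfl⟩ _ ⟨⟨j, k⟩, rfl⟩
    by_cases h : i ≠ j ∨ m ≠ k
    · exact hzc i m j k h _ (coef_mem w g z i m) _ (coef_mem w g z j k)
    · push Not at h
      obtain ⟨rfl, rfl⟩ := h
      rfl
  let _ : CommGroup (Subgroup.closure X) := Subgroup.closureCommGroupOfComm hXc
  let ι : Subgroup.closure X →* G := (Subgroup.closure X).subtype
  let c : Fin n → ℕ → Subgroup.closure X := fun i m =>
    ⟨coef w g z i m, Subgroup.subset_closure ⟨(i, m), rfl⟩⟩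
  have hinj : ∀ i, Function.Injective (z i) := by
    intro i m m' h
    have h1 := hf h
    rw [Nat.pair_eq_pair] at h1
    exact h1.2
  -- solutions
  have sol : ∀ a : Fin n → G, ∀ J : Fin n → Set ℕ, (∀ i, (J i).Infinite) →
      (∀ m : Fin n → ℕ, (∀ i, m i ∈ J i) → ∀ i j, ∀ x ∈ Subgroup.normalClosure {z i (m i)},
        a j * x = x * a j) →
      ∃ m : Fin n → ℕ, (∀ i, m i ∈ J i) ∧
        FreeGroup.lift (fun j => g j * a j) w * ι (∏ i, c i (m i)) = 1 := by
    intro a J hJ ha
    obtain ⟨s, hs, hw⟩ := hG (fun i => (fun m => g i * a i * z i m) '' J i) (fun i =>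
      (hJ i).image (fun x _ y _ hxy => hinj i (mul_left_cancel hxy)))
    choose m hm hm2 using hs
    refine ⟨m, hm, ?_⟩
    rw [← product_formula w g a z m (fun i j hij x hx =>
      (hzc j (m j) i (m i) (Or.inl (Ne.symm hij)) _ (hself j (m j)) x hx)) (ha m hm) ι c
      (fun i => rfl)]
    have : (fun j => g j * a j * z j (m j)) = s := funext hm2
    rw [this]
    exact hw
  have h0 : FreeGroup.lift g w ∈ Subgroup.closure X := by
    obtain ⟨m, -, hm⟩ := sol (fun _ => 1) (fun _ => Set.univ) (fun _ => Set.infinite_univ)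
      (fun _ _ _ _ _ _ => by simp)
    simp only [mul_one] at hm
    rw [mul_eq_one_iff_eq_inv] at hm
    have hm' : FreeGroup.lift g w = (ι (∏ i, c i (m i)))⁻¹ := hm
    rw [hm']
    exact Subgroup.inv_mem _ (∏ i, c i (m i)).2
  have hfin := abelian_core (Q := Additive (Subgroup.closure X))
    (fun i m => Additive.ofMul (c i m)) (Additive.ofMul ⟨FreeGroup.lift g w, h0⟩) ?_ ?_
  · have h1 : (⟨FreeGroup.lift g w, h0⟩ : Subgroup.closure X) = 1 := hfin
    exact congrArg Subtype.val h1
  · intro J hJ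
    obtain ⟨m, hm, hm2⟩ := sol (fun _ => 1) J hJ (fun _ _ _ _ _ _ => by simp)
    refine ⟨m, hm, ?_⟩
    simp only [mul_one] at hm2
    have h3 : (⟨FreeGroup.lift g w, h0⟩ : Subgroup.closure X) * ∏ i, c i (m i) = 1 :=
      Subtype.ext hm2
    have h4 := congrArg Additive.ofMul h3
    rw [ofMul_mul, ofMul_prod, ofMul_one] at h4
    exact h4
  · intro i0 m0 J hJ
    have hJ' : ∀ i, (J i \ {m0}).Infinite := fun i => (hJ i).sdiff (Set.finite_singleton m0)
    obtain ⟨m, hm, hm2⟩ := sol (fun j => if j = i0 then z i0 m0 else 1) (fun i => J i \ {m0}) hJ' (by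
      intro m hm i j x hx
      show (if j = i0 then z i0 m0 else 1) * x = x * (if j = i0 then z i0 m0 else 1)
      split_ifs
      · exact hzc i0 m0 i (m i) (Or.inr fun h => (hm i).2 h.symm) _ (hself i0 m0) x hx
      · simp)
    refine ⟨m, fun i => (hm i).1, ?_⟩
    have h5 : FreeGroup.lift (fun j => g j * (if j = i0 then z i0 m0 else 1)) w =
        FreeGroup.lift g w * coef w g z i0 m0 := by
      unfold coef
      rw [mul_inv_cancel_left]
    rw [h5] at hm2
    have h3 : (⟨FreeGroup.lift g w, h0⟩ : Subgroup.closure X) * c i0 m0 * ∏ i, c i (m i) = 1 :=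
      Subtype.ext hm2
    have h4 := congrArg Additive.ofMul h3
    rw [ofMul_mul, ofMul_mul, ofMul_prod, ofMul_one] at h4
    exact h4

/-- Elements with finitely many conjugates: closed under `x⁻¹ y`. -/
theorem fc_inv_mul {G : Type*} [Group G] {x y : G} (hx : (conjugatesOf x).Finite)
    (hy : (conjugatesOf y).Finite) : (conjugatesOf (x⁻¹ * y)).Finite := by
  refine (Set.Finite.image2 (fun a b => a⁻¹ * b) hx hy).subset ?_
  intro c hc
  obtain ⟨r, hr⟩ := isConj_iff.1 (hc : IsConj (x⁻¹ * y) c)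
  refine ⟨r * x * r⁻¹, (isConj_iff.2 ⟨r, rfl⟩ : IsConj x _), r * y * r⁻¹,
    (isConj_iff.2 ⟨r, rfl⟩ : IsConj y _), ?_⟩
  rw [← hr]
  group

/-- Given finitely many elements of an infinite FC-centre, some other element of it commutes with all
their conjugates. -/
theorem exists_next {G : Type*} [Group G] (hF : {x : G | (conjugatesOf x).Finite}.Infinite)
    (s : Finset G) (hs : ∀ x ∈ s, (conjugatesOf x).Finite) :
    ∃ y : G, (conjugatesOf y).Finite ∧ ∀ x ∈ s, x ≠ y ∧ ∀ c ∈ conjugatesOf x, y * c = c * y := by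
  classical
  set T : Set G := ⋃ x ∈ s, conjugatesOf x with hT
  have hTf : T.Finite := Set.Finite.biUnion s.finite_toSet fun x hx => hs x hx
  have hTc : ∀ r : G, ∀ c ∈ T, r * c * r⁻¹ ∈ T := by
    intro r c hc
    obtain ⟨x, hx, hc'⟩ := Set.mem_iUnion₂.1 hc
    refine Set.mem_iUnion₂.2 ⟨x, hx, ?_⟩
    exact IsConj.trans (hc' : IsConj x c) (isConj_iff.2 ⟨r, rfl⟩)
  have : Finite T := hTf
  have : Infinite {x : G | (conjugatesOf x).Finite} := hF.to_subtype
  obtain ⟨F, hFi⟩ := Finite.exists_infinite_fiber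
    (fun (x : {x : G | (conjugatesOf x).Finite}) (c : T) =>
      (⟨(x : G) * c * (x : G)⁻¹, hTc x c c.2⟩ : T))
  obtain ⟨x0⟩ := (inferInstance : Nonempty ((fun (x : {x : G | (conjugatesOf x).Finite}) (c : T) =>
      (⟨(x : G) * c * (x : G)⁻¹, hTc x c c.2⟩ : T)) ⁻¹' {F}))
  have hinf : ((fun y : ((fun (x : {x : G | (conjugatesOf x).Finite}) (c : T) =>
      (⟨(x : G) * c * (x : G)⁻¹, hTc x c c.2⟩ : T)) ⁻¹' {F}) => ((x0 : G))⁻¹ * (y : G)) ''
      Set.univ).Infinite := by
    refine Set.infinite_univ.image ?_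
    intro a _ b _ hab
    exact Subtype.ext (Subtype.ext (mul_left_cancel hab))
  obtain ⟨y, ⟨y0, -, rfl⟩, hys⟩ := hinf.exists_notMem_finset s
  refine ⟨_, fc_inv_mul x0.1.2 y0.1.2, fun x hx => ⟨?_, fun c hc => ?_⟩⟩
  · rintro rfl
    exact hys hx
  have hcT : c ∈ T := Set.mem_iUnion₂.2 ⟨x, hx, hc⟩
  have h1 := congrFun ((x0.2 : _ = F).trans (y0.2 : _ = F).symm) ⟨c, hcT⟩
  have h2 : (x0 : G) * c * (x0 : G)⁻¹ = (y0 : G) * c * (y0 : G)⁻¹ := congrArg Subtype.val h1
  show (x0 : G)⁻¹ * (y0 : G) * c = c * ((x0 : G)⁻¹ * (y0 : G))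
  calc (x0 : G)⁻¹ * (y0 : G) * c = (x0 : G)⁻¹ * ((y0 : G) * c * (y0 : G)⁻¹) * (y0 : G) := by group
    _ = (x0 : G)⁻¹ * ((x0 : G) * c * (x0 : G)⁻¹) * (y0 : G) := by rw [h2]
    _ = _ := by group

/-- Commuting with all conjugates of `x` gives commuting normal closures. -/
theorem commute_closures {G : Type*} [Group G] {x y : G} (h : ∀ c ∈ conjugatesOf x, y * c = c * y) :
    ∀ a ∈ Subgroup.normalClosure {x}, ∀ b ∈ Subgroup.normalClosure {y}, a * b = b * a := by
  have h1 : Subgroup.normalClosure {x} ≤ Subgroup.centralizer {y} := by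
    show Subgroup.closure _ ≤ _
    rw [Subgroup.closure_le]
    intro c hc
    rw [Group.conjugatesOfSet] at hc
    simp only [Set.mem_singleton_iff, Set.iUnion_iUnion_eq_left] at hc
    rw [SetLike.mem_coe, Subgroup.mem_centralizer_singleton_iff]
    exact (h c hc).symm
  have h2 : Subgroup.normalClosure {y} ≤ Subgroup.centralizer (Subgroup.normalClosure {x} : Set G) := by
    show Subgroup.closure _ ≤ _
    rw [Subgroup.closure_le]
    intro c hc
    rw [Group.conjugatesOfSet] at hc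
    simp only [Set.mem_singleton_iff, Set.iUnion_iUnion_eq_left] at hc
    obtain ⟨r, rfl⟩ := isConj_iff.1 (hc : IsConj y c)
    rw [SetLike.mem_coe, Subgroup.mem_centralizer_iff]
    intro a ha
    have h3 : r⁻¹ * a * r ∈ Subgroup.normalClosure {x} := by
      simpa using Subgroup.normalClosure_normal.conj_mem a ha r⁻¹
    have h4 := Subgroup.mem_centralizer_singleton_iff.1 (h1 h3)
    calc a * (r * y * r⁻¹) = r * ((r⁻¹ * a * r) * y) * r⁻¹ := by group
      _ = r * (y * (r⁻¹ * a * r)) * r⁻¹ := by rw [h4]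
      _ = _ := by group
  intro a ha b hb
  exact Subgroup.mem_centralizer_iff.1 (h2 hb) a ha

/-- If infinitely many elements of `G` have finitely many conjugates, then the infinite-subset version
of a law implies the law. -/
theorem law_of_infinite_fc {n : ℕ} (w : FreeGroup (Fin n)) (G : Type*) [Group G]
    (hG : ∀ S : Fin n → Set G, (∀ i, (S i).Infinite) →
      ∃ s : Fin n → G, (∀ i, s i ∈ S i) ∧ FreeGroup.lift s w = 1)
    (hF : {x : G | (conjugatesOf x).Finite}.Infinite) (g : Fin n → G) :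
    FreeGroup.lift g w = 1 := by
  classical
  obtain ⟨f, hf1, hf2⟩ := exists_seq_of_forall_finset_exists
    (fun x : G => (conjugatesOf x).Finite)
    (fun x y => x ≠ y ∧ ∀ c ∈ conjugatesOf x, y * c = c * y) (fun s hs => exists_next hF s hs)
  have hne : ∀ j k, j ≠ k → f j ≠ f k := by
    intro j k h
    rcases lt_or_gt_of_ne h with h | h
    · exact (hf2 j k h).1
    · exact (hf2 k j h).1.symm
  refine law_of_commuting w G hG f (fun j k h => by
    by_contra hjk
    exact hne j k hjk h) ?_ g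
  intro j k hjk x hx y hy
  rcases lt_or_gt_of_ne hjk with h | h
  · exact commute_closures (hf2 j k h).2 x hx y hy
  · exact (commute_closures (hf2 k j h).2 y hy x hx).symm

end Pool.Agent.FCW
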