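import Pool.Agent.FCW.Residual

/-!
Monolithic counterexamples.
-/

set_option autoImplicit false

universe u

namespace Pool.Agent.FCW

variable {n : ℕ} {w : FreeGroup (Fin n)}

/-- The verbal subgroup lies in each non-trivial normal subgroup. -/
def Mono {n : ℕ} (w : FreeGroup (Fin n)) (G : Type u) [Group G] : Prop :=
  ∀ N : Subgroup G, N.Normal → N ≠ ⊥ → verbal w G ≤ N

theorem infinite_quot {G : Type u} [Group G] [Infinite G] (N : Subgroup G) (hN : Finite N) :
    Infinite (G ⧸ N) := by
  by_contra hcon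
  have : Finite (G ⧸ N) := not_infinite_iff_finite.1 hcon
  exact not_finite_iff_infinite.2 ‹Infinite G›
    (Finite.of_equiv _ (Subgroup.groupEquivQuotientProdSubgroup (s := N)).symm)

theorem exists_mono (G : Type u) [Group G] (hG : Star w G) (h : ¬ Law w G) :
    ∃ (N : Subgroup G) (_ : N.Normal), Finite N ∧ ¬ Law w (G ⧸ N) ∧ Mono w (G ⧸ N) := by
  have hF := fcc_finite hG h
  obtain ⟨s, hs⟩ : ∃ s : Set (Subgroup G),
    s = {N | N.Normal ∧ N ≤ fcc G ∧ ¬ verbal w G ≤ N} := ⟨_, rfl⟩
  have hsf : s.Finite := by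
    have : Finite (fcc G) := hF
    refine Set.Finite.of_injOn (f := fun N => N.subgroupOf (fcc G)) (t := Set.univ)
      (fun _ _ => trivial) ?_ Set.finite_univ
    intro A hA B hB hAB
    rw [hs] at hA hB
    have h1 := congrArg (Subgroup.map (fcc G).subtype) hAB
    simp only at h1
    rwa [Subgroup.map_subgroupOf_eq_of_le hA.2.1, Subgroup.map_subgroupOf_eq_of_le hB.2.1] at h1
  have hne : s.Nonempty := by
    refine ⟨⊥, ?_⟩
    rw [hs]
    exact ⟨inferInstance, bot_le, fun h1 => verbal_ne_bot h (eq_bot_iff.2 h1)⟩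
  obtain ⟨N, hN⟩ := hsf.exists_maximal hne
  have hNs := hN.prop
  rw [hs] at hNs
  obtain ⟨hN1, hN2, hN3⟩ := hNs
  refine ⟨N, hN1, (hF.subset hN2 : (N : Set G).Finite), ?_, ?_⟩
  · intro hl
    apply hN3
    rw [verbal_le_iff]
    intro g
    have h1 := hl (fun i => QuotientGroup.mk' N (g i))
    rw [← hom_lift] at h1
    exact (QuotientGroup.eq_one_iff _).1 h1
  · intro L hL hLne
    have hL' : (L.comap (QuotientGroup.mk' N)).Normal := inferInstance
    have key : verbal w G ≤ L.comap (QuotientGroup.mk' N) := by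
      by_cases hf : ((L.comap (QuotientGroup.mk' N) : Subgroup G) : Set G).Finite
      · by_contra hcon
        have h1 : L.comap (QuotientGroup.mk' N) ≤ fcc G := le_fcc _ hf
        have h2 : N ≤ L.comap (QuotientGroup.mk' N) := by
          intro x hx
          rw [Subgroup.mem_comap]
          have : QuotientGroup.mk' N x = 1 := (QuotientGroup.eq_one_iff x).2 hx
          rw [this]
          exact L.one_mem
        have h4 : L.comap (QuotientGroup.mk' N) ∈ s := by
          rw [hs]
          exact ⟨hL', h1, hcon⟩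
        have h3 := hN.le_of_ge h4 h2
        apply hLne
        rw [eq_bot_iff]
        intro y hy
        obtain ⟨x, rfl⟩ := QuotientGroup.mk'_surjective N y
        have h5 : x ∈ N := h3 hy
        exact (QuotientGroup.eq_one_iff x).2 h5
      · exact verbal_le hG _ hf
    rw [verbal_le_iff]
    intro g
    choose g' hg' using fun i => QuotientGroup.mk'_surjective N (g i)
    have h6 : g = fun i => QuotientGroup.mk' N (g' i) := (funext hg').symm
    rw [h6, ← hom_lift]
    exact key (Subgroup.subset_closure ⟨g', rfl⟩)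

/-- Finite monolith: abelian of prime exponent, with a centraliser of finite index. -/
def FinMono {n : ℕ} (w : FreeGroup (Fin n)) (H : Type u) [Group H] : Prop :=
  Finite (verbal w H) ∧ verbal w H ≤ cen w H ∧ (cen w H).FiniteIndex ∧
    ∃ p : ℕ, p.Prime ∧ ∀ x ∈ verbal w H, x ^ p = 1

/-- Infinite monolith: trivial centraliser, perfect, no proper subgroup of finite index. -/
def InfMono {n : ℕ} (w : FreeGroup (Fin n)) (H : Type u) [Group H] : Prop :=
  Infinite (verbal w H) ∧ cen w H = ⊥ ∧ ⁅verbal w H, verbal w H⁆ = verbal w H ∧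
    ∀ U : Subgroup H, U.relIndex (verbal w H) ≠ 0 → verbal w H ≤ U

theorem prime_exp {H : Type u} [Group H] (M : Subgroup H) (hMf : Finite M) (hne : M ≠ ⊥)
    [hMn : M.Normal] (hab : ∀ x ∈ M, ∀ y ∈ M, x * y = y * x)
    (hm : ∀ N : Subgroup H, N.Normal → N ≠ ⊥ → M ≤ N) :
    ∃ p : ℕ, p.Prime ∧ ∀ x ∈ M, x ^ p = 1 := by
  have hc : Nat.card M ≠ 1 := by
    intro h1
    exact hne (Subgroup.card_eq_one.1 h1)
  obtain ⟨p, hp, hpd⟩ := Nat.exists_prime_and_dvd hc
  have : Fact p.Prime := ⟨hp⟩
  obtain ⟨x, hx⟩ := exists_prime_orderOf_dvd_card' (G := M) p hpd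
  have hxp : (x : H) ^ p = 1 := by
    have h1 := pow_orderOf_eq_one x
    rw [hx] at h1
    have h2 := congrArg (fun y : M => (y : H)) h1
    simpa using h2
  have hx1 : (x : H) ≠ 1 := by
    intro h1
    have h2 : x = 1 := Subtype.ext h1
    rw [h2, orderOf_one] at hx
    exact hp.one_lt.ne hx
  refine ⟨p, hp, fun y hy => ?_⟩
  have h3 : Subgroup.normalClosure {(x : H)} ≠ ⊥ := by
    intro h4
    have h5 : (x : H) ∈ Subgroup.normalClosure {(x : H)} :=
      Subgroup.subset_normalClosure (Set.mem_singleton _)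
    rw [h4] at h5
    exact hx1 h5
  have h6 := hm _ Subgroup.normalClosure_normal h3 hy
  have h7 : ∀ z ∈ Subgroup.normalClosure {(x : H)}, z ∈ M ∧ z ^ p = 1 := by
    intro z hz
    unfold Subgroup.normalClosure at hz
    induction hz using Subgroup.closure_induction with
    | mem a ha =>
      obtain ⟨b, hb, hab2⟩ := Group.mem_conjugatesOfSet_iff.1 ha
      rw [Set.mem_singleton_iff] at hb
      subst hb
      obtain ⟨c, hc2⟩ := isConj_iff.1 hab2
      rw [← hc2]
      refine ⟨hMn.conj_mem _ x.2 c, ?_⟩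
      rw [conj_pow, hxp]
      simp
    | one => exact ⟨M.one_mem, one_pow _⟩
    | mul a b _ _ iha ihb =>
      refine ⟨M.mul_mem iha.1 ihb.1, ?_⟩
      have h8 : Commute a b := hab a iha.1 b ihb.1
      rw [h8.mul_pow, iha.2, ihb.2, one_mul]
    | inv a _ iha =>
      exact ⟨M.inv_mem iha.1, by rw [inv_pow, iha.2, inv_one]⟩
  exact (h7 y h6).2

theorem prime_card {H : Type u} [Group H] (M : Subgroup H) (hMf : Finite M) (hne : M ≠ ⊥)
    (hc : M ≤ Subgroup.center H) (hm : ∀ N : Subgroup H, N.Normal → N ≠ ⊥ → M ≤ N) :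
    (Nat.card M).Prime := by
  have hcd : Nat.card M ≠ 1 := by
    intro h1
    exact hne (Subgroup.card_eq_one.1 h1)
  obtain ⟨p, hp, hpd⟩ := Nat.exists_prime_and_dvd hcd
  have : Fact p.Prime := ⟨hp⟩
  obtain ⟨x, hx⟩ := exists_prime_orderOf_dvd_card' (G := M) p hpd
  have hx1 : (x : H) ≠ 1 := by
    intro h1
    have h2 : x = 1 := Subtype.ext h1
    rw [h2, orderOf_one] at hx
    exact hp.one_lt.ne hx
  have hzc : Subgroup.zpowers (x : H) ≤ Subgroup.center H := by
    rw [Subgroup.zpowers_le]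
    exact hc x.2
  have hn : (Subgroup.zpowers (x : H)).Normal := by
    refine ⟨fun y hy c => ?_⟩
    have h3 := Subgroup.mem_center_iff.1 (hzc hy) c
    rw [h3, mul_inv_cancel_right]
    exact hy
  have h4 : Subgroup.zpowers (x : H) ≠ ⊥ := by
    rw [Ne, Subgroup.zpowers_eq_bot]
    exact hx1
  have h5 : M = Subgroup.zpowers (x : H) :=
    le_antisymm (hm _ hn h4) (by rw [Subgroup.zpowers_le]; exact x.2)
  rw [h5, Nat.card_zpowers, Subgroup.orderOf_coe, hx]
  exact hp

theorem shape_mono (H : Type u) [Group H] [Infinite H] (hH : Star w H) (h : ¬ Law w H)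
    (hm : Mono w H) : FinMono w H ∨
      (InfMono w H ∧ (Law w (verbal w H) ∨ (IsSimpleGroup (verbal w H) ∧ ¬ Law w (verbal w H)))) := by
  by_cases hf : Finite (verbal w H)
  · left
    obtain ⟨ha, hb, hc, hd⟩ := shape_finite H hH hf
    refine ⟨hf, hb, ha, prime_exp _ hf (verbal_ne_bot h) (fun x hx y hy => ?_) hm⟩
    exact Subgroup.mem_centralizer_iff.1 (hb hy) x hx
  · right
    have hfc : fcc H = ⊥ := by
      by_contra hne
      have h1 := hm _ inferInstance hne
      exact hf ((fcc_finite hH h).subset h1)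
    obtain ⟨ha, hb, hc, hd, he⟩ := shape_fcc H hH h hfc
    refine ⟨⟨ha, hb, hc, fun U hU => ?_⟩, he⟩
    rw [verbal_le_iff]
    intro g
    refine mem_of_relIndex hH g (verbal w H) (fun i => ?_) (Set.infinite_coe_iff.1 ha) U hU
    rw [Subgroup.normalizer_eq_top]
    trivial

end Pool.Agent.FCW
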