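import Pool.Agent.FCW.Main

/-!
Infinite subgroups normalised by the tuple which are FC-groups or soluble: the infinite-subset version
of a group law implies the law on the tuple.
-/

set_option autoImplicit false

namespace Pool.Agent.FCW

open Filter Topology

theorem comm_closure {G : Type*} [Group G] {S T : Set G} (h : ∀ x ∈ S, ∀ y ∈ T, x * y = y * x) :
    ∀ x ∈ Subgroup.closure S, ∀ y ∈ Subgroup.closure T, x * y = y * x := by
  have h1 : Subgroup.closure S ≤ Subgroup.centralizer T := by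
    rw [Subgroup.closure_le]
    intro x hx
    rw [SetLike.mem_coe, Subgroup.mem_centralizer_iff]
    intro y hy
    exact (h x hx y hy).symm
  have h2 : Subgroup.closure T ≤ Subgroup.centralizer (Subgroup.closure S : Set G) := by
    rw [Subgroup.closure_le]
    intro y hy
    rw [SetLike.mem_coe, Subgroup.mem_centralizer_iff]
    intro x hx
    exact (Subgroup.mem_centralizer_iff.1 (h1 hx) y hy).symm
  intro x hx y hy
  exact Subgroup.mem_centralizer_iff.1 (h2 hy) x hx

/-- `w(g a)` divided by `w(g)`. -/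
noncomputable def dev {n : ℕ} {G : Type*} [Group G] (g : Fin n → G) (w : FreeGroup (Fin n))
    (a : Fin n → G) : G :=
  (FreeGroup.lift g w)⁻¹ * FreeGroup.lift (fun i => g i * a i) w

/-- Conjugates of the entries of `a` by `P`. -/
def cjs {n : ℕ} {G : Type*} [Group G] (P : Finset G) (a : Fin n → G) : Set G :=
  {x | ∃ t ∈ P, ∃ i, x = t⁻¹ * a i * t}

/-- Only finitely many conjugates matter. -/
theorem word_dev {n : ℕ} {G : Type*} [Group G] (g : Fin n → G) (w : FreeGroup (Fin n)) :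
    ∃ P : Finset G, (∀ t ∈ P, t ∈ Subgroup.closure (Set.range g)) ∧
      (∀ a, dev g w a ∈ Subgroup.closure (cjs P a)) ∧
      (∀ b c : Fin n → G, (∀ x ∈ cjs P b, ∀ y ∈ cjs P c, x * y = y * x) →
        dev g w (fun i => b i * c i) = dev g w b * dev g w c) := by
  classical
  induction w using FreeGroup.induction_on with
  | C1 => exact ⟨∅, by simp, fun a => by simp [dev], fun b c _ => by simp [dev]⟩
  | of i =>
    refine ⟨{1}, by simp, fun a => ?_, fun b c _ => ?_⟩
    · have : dev g (FreeGroup.of i) a = a i := by simp [dev]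
      rw [this]
      exact Subgroup.subset_closure ⟨1, by simp, i, by simp⟩
    · simp [dev]
  | inv_of i ih =>
    have hd : ∀ a, dev g (FreeGroup.of i)⁻¹ a = g i * (a i)⁻¹ * (g i)⁻¹ := by
      intro a
      unfold dev
      rw [map_inv, map_inv, FreeGroup.lift_apply_of, FreeGroup.lift_apply_of]
      group
    refine ⟨{(g i)⁻¹}, ?_, fun a => ?_, fun b c h => ?_⟩
    · intro t ht
      rw [Finset.mem_singleton.1 ht]
      exact Subgroup.inv_mem _ (Subgroup.subset_closure ⟨i, rfl⟩)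
    · rw [hd]
      have h1 : g i * a i * (g i)⁻¹ ∈ Subgroup.closure (cjs {(g i)⁻¹} a) :=
        Subgroup.subset_closure ⟨(g i)⁻¹, by simp, i, by simp⟩
      have h2 := Subgroup.inv_mem _ h1
      have h3 : g i * (a i)⁻¹ * (g i)⁻¹ = (g i * a i * (g i)⁻¹)⁻¹ := by group
      rw [h3]
      exact h2
    · rw [hd, hd, hd]
      have h1 := h (g i * b i * (g i)⁻¹) ⟨(g i)⁻¹, by simp, i, by simp⟩
        (g i * c i * (g i)⁻¹) ⟨(g i)⁻¹, by simp, i, by simp⟩
      calc g i * (b i * c i)⁻¹ * (g i)⁻¹ =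
          ((g i * b i * (g i)⁻¹) * (g i * c i * (g i)⁻¹))⁻¹ := by group
        _ = ((g i * c i * (g i)⁻¹) * (g i * b i * (g i)⁻¹))⁻¹ := by rw [h1]
        _ = _ := by group
  | mul u v hu hv =>
    obtain ⟨P, hP, hPm, hPc⟩ := hu
    obtain ⟨P', hP', hPm', hPc'⟩ := hv
    obtain ⟨V, hV⟩ : ∃ V, V = FreeGroup.lift g v := ⟨_, rfl⟩
    have hVm : V ∈ Subgroup.closure (Set.range g) := by
      rw [hV]
      have : (FreeGroup.lift g).range ≤ Subgroup.closure (Set.range g) := by
        rw [FreeGroup.range_lift_eq_closure]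
      exact this ⟨v, rfl⟩
    have hd : ∀ a, dev g (u * v) a = V⁻¹ * dev g u a * V * dev g v a := by
      intro a
      unfold dev
      rw [map_mul, map_mul, hV]
      group
    set Q : Finset G := P.image (fun t => t * V) ∪ P' with hQ
    have hsub : ∀ a : Fin n → G, cjs P' a ⊆ cjs Q a := by
      rintro a x ⟨t, ht, i, rfl⟩
      exact ⟨t, Finset.mem_union_right _ ht, i, rfl⟩
    have hsub2 : ∀ (a : Fin n → G), ∀ x ∈ cjs P a, V⁻¹ * x * V ∈ cjs Q a := by
      rintro a x ⟨t, ht, i, rfl⟩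
      exact ⟨t * V, Finset.mem_union_left _ (Finset.mem_image_of_mem _ ht), i, by group⟩
    have hmem2 : ∀ a, V⁻¹ * dev g u a * V ∈ Subgroup.closure (cjs Q a) := by
      intro a
      have h1 : Subgroup.closure (cjs P a) ≤
          (Subgroup.closure (cjs Q a)).comap (MulAut.conj V⁻¹).toMonoidHom := by
        rw [Subgroup.closure_le]
        intro x hx
        rw [SetLike.mem_coe, Subgroup.mem_comap]
        have : (MulAut.conj V⁻¹).toMonoidHom x = V⁻¹ * x * V := by simp
        rw [this]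
        exact Subgroup.subset_closure (hsub2 a x hx)
      have h2 := h1 (hPm a)
      rw [Subgroup.mem_comap] at h2
      have : (MulAut.conj V⁻¹).toMonoidHom (dev g u a) = V⁻¹ * dev g u a * V := by
        simp
      rwa [this] at h2
    refine ⟨Q, ?_, fun a => ?_, fun b c h => ?_⟩
    · intro t ht
      rcases Finset.mem_union.1 ht with ht | ht
      · obtain ⟨t', ht', rfl⟩ := Finset.mem_image.1 ht
        exact Subgroup.mul_mem _ (hP t' ht') hVm
      · exact hP' t ht
    · rw [hd]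
      exact Subgroup.mul_mem _ (hmem2 a) (Subgroup.closure_mono (hsub a) (hPm' a))
    · rw [hd, hd, hd, hPc' b c (fun x hx y hy => h x (hsub b hx) y (hsub c hy)),
        hPc b c (fun x hx y hy => ?_)]
      · have h1 := comm_closure h (dev g v b) (Subgroup.closure_mono (hsub b) (hPm' b))
          (V⁻¹ * dev g u c * V) (hmem2 c)
        calc V⁻¹ * (dev g u b * dev g u c) * V * (dev g v b * dev g v c) =
            (V⁻¹ * dev g u b * V) * ((V⁻¹ * dev g u c * V) * dev g v b) * dev g v c := by group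
          _ = (V⁻¹ * dev g u b * V) * (dev g v b * (V⁻¹ * dev g u c * V)) * dev g v c := by rw [h1]
          _ = _ := by group
      · have h1 := h _ (hsub2 b x hx) _ (hsub2 c y hy)
        calc x * y = V * ((V⁻¹ * x * V) * (V⁻¹ * y * V)) * V⁻¹ := by group
          _ = V * ((V⁻¹ * y * V) * (V⁻¹ * x * V)) * V⁻¹ := by rw [h1]
          _ = y * x := by group

/-- The tuple with `x` at place `i` and `1` elsewhere. -/
def one {n : ℕ} {G : Type*} [Group G] (i : Fin n) (x : G) : Fin n → G := fun j => if j = i then x else 1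

/-- The product formula. -/
theorem dev_prod {n : ℕ} {G : Type*} [Group G] (w : FreeGroup (Fin n)) (g a : Fin n → G)
    (P : Finset G) (hPc : ∀ b c : Fin n → G, (∀ x ∈ cjs P b, ∀ y ∈ cjs P c, x * y = y * x) →
        dev g w (fun i => b i * c i) = dev g w b * dev g w c)
    (z : Fin n → G)
    (hz : ∀ i j, i ≠ j → ∀ t ∈ P, ∀ t' ∈ P, Commute (t⁻¹ * z i * t) (t'⁻¹ * z j * t'))
    (ha : ∀ i j, ∀ t ∈ P, ∀ t' ∈ P, Commute (t⁻¹ * a i * t) (t'⁻¹ * z j * t'))
    {Q : Type*} [CommGroup Q] (ι : Q →* G) (c : Fin n → Q)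
    (hc : ∀ i, ι (c i) = dev g w (one i (z i))) :
    dev g w (fun j => a j * z j) = dev g w a * ι (∏ i, c i) := by
  classical
  have key : ∀ s : Finset (Fin n),
      dev g w (fun j => a j * (if j ∈ s then z j else 1)) = dev g w a * ι (∏ i ∈ s, c i) := by
    intro s
    induction s using Finset.induction_on with
    | empty => simp
    | insert i s his ih =>
      rw [Finset.prod_insert his, mul_comm (c i), map_mul, ← mul_assoc, ← ih, hc i, ← hPc]
      · congr 1
        funext j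
        by_cases hj : j = i
        · subst hj
          simp [his, one]
        · simp [hj, Finset.mem_insert, one]
      · rintro x ⟨t, ht, j, rfl⟩ y ⟨t', ht', k, rfl⟩
        have h1 : Commute (t⁻¹ * a j * t) (t'⁻¹ * one i (z i) k * t') := by
          unfold one
          split_ifs with hk
          · exact ha j i t ht t' ht'
          · simp
        have h2 : Commute (t⁻¹ * (if j ∈ s then z j else 1) * t) (t'⁻¹ * one i (z i) k * t') := by
          unfold one
          split_ifs with hj hk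
          · refine hz j i ?_ t ht t' ht'
            rintro rfl
            exact his hj
          · simp
          · simp
          · simp
        have h3 := h1.mul_left h2
        have h4 : t⁻¹ * (a j * (if j ∈ s then z j else 1)) * t =
            (t⁻¹ * a j * t) * (t⁻¹ * (if j ∈ s then z j else 1) * t) := by group
        rw [h4]
        exact h3
  have h := key Finset.univ
  simpa using h

/-- A sequence whose conjugates by the finite set of the word commute. -/
theorem law_of_seq {n : ℕ} (w : FreeGroup (Fin n)) (G : Type*) [Group G]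
    (hG : ∀ S : Fin n → Set G, (∀ i, (S i).Infinite) →
      ∃ s : Fin n → G, (∀ i, s i ∈ S i) ∧ FreeGroup.lift s w = 1)
    (g : Fin n → G) (P : Finset G) (hPm : ∀ a, dev g w a ∈ Subgroup.closure (cjs P a))
    (hPc : ∀ b c : Fin n → G, (∀ x ∈ cjs P b, ∀ y ∈ cjs P c, x * y = y * x) →
        dev g w (fun i => b i * c i) = dev g w b * dev g w c)
    (f : ℕ → G) (hf : Function.Injective f)
    (hcomm : ∀ j k, j ≠ k → ∀ t ∈ P, ∀ t' ∈ P, Commute (t⁻¹ * f j * t) (t'⁻¹ * f k * t')) :
    FreeGroup.lift g w = 1 := by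
  classical
  set z : Fin n → ℕ → G := fun i m => f (Nat.pair i m) with hz
  have hzc : ∀ i m j k, (i ≠ j ∨ m ≠ k) → ∀ t ∈ P, ∀ t' ∈ P,
      Commute (t⁻¹ * z i m * t) (t'⁻¹ * z j k * t') := by
    intro i m j k h
    refine hcomm _ _ fun h1 => ?_
    rw [Nat.pair_eq_pair] at h1
    rcases h with h | h
    · exact h (Fin.ext h1.1)
    · exact h h1.2
  set X : Set G := Set.range (fun q : Fin n × ℕ => dev g w (one q.1 (z q.1 q.2))) with hX
  have hXc : ∀ x ∈ X, ∀ y ∈ X, x * y = y * x := by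
    rintro _ ⟨⟨i, m⟩, rfl⟩ _ ⟨⟨j, k⟩, rfl⟩
    by_cases h : i ≠ j ∨ m ≠ k
    · refine comm_closure ?_ _ (hPm (one i (z i m))) _ (hPm (one j (z j k)))
      rintro x ⟨t, ht, i', rfl⟩ y ⟨t', ht', j', rfl⟩
      unfold one
      split_ifs
      · exact hzc i m j k h t ht t' ht'
      · simp
      · simp
      · simp
    · push Not at h
      obtain ⟨rfl, rfl⟩ := h
      rfl
  let _ : CommGroup (Subgroup.closure X) := Subgroup.closureCommGroupOfComm hXc
  let ι : Subgroup.closure X →* G := (Subgroup.closure X).subtype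
  let c : Fin n → ℕ → Subgroup.closure X := fun i m =>
    ⟨dev g w (one i (z i m)), Subgroup.subset_closure ⟨(i, m), rfl⟩⟩
  have hinj : ∀ i, Function.Injective (z i) := by
    intro i m m' h
    have h1 := hf h
    rw [Nat.pair_eq_pair] at h1
    exact h1.2
  have hdev : ∀ a, FreeGroup.lift (fun i => g i * a i) w = FreeGroup.lift g w * dev g w a := by
    intro a
    unfold dev
    rw [mul_inv_cancel_left]
  have hdev1 : dev g w (fun _ => 1) = 1 := by
    unfold dev
    simp
  -- solutions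
  have sol : ∀ a : Fin n → G, ∀ J : Fin n → Set ℕ, (∀ i, (J i).Infinite) →
      (∀ m : Fin n → ℕ, (∀ i, m i ∈ J i) → ∀ i j, ∀ t ∈ P, ∀ t' ∈ P,
        Commute (t⁻¹ * a i * t) (t'⁻¹ * z j (m j) * t')) →
      ∃ m : Fin n → ℕ, (∀ i, m i ∈ J i) ∧
        FreeGroup.lift g w * (dev g w a * ι (∏ i, c i (m i))) = 1 := by
    intro a J hJ ha
    obtain ⟨s, hs, hw⟩ := hG (fun i => (fun m => g i * (a i * z i m)) '' J i) (fun i =>
      (hJ i).image (fun x _ y _ hxy => hinj i (mul_left_cancel (mul_left_cancel hxy))))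
    choose m hm hm2 using hs
    refine ⟨m, hm, ?_⟩
    rw [← dev_prod w g a P hPc (fun j => z j (m j)) (fun i j hij => hzc i (m i) j (m j) (Or.inl hij))
      (ha m hm) ι (fun i => c i (m i)) (fun i => rfl), ← hdev]
    have : (fun j => g j * (a j * z j (m j))) = s := funext hm2
    rw [this]
    exact hw
  have h0 : FreeGroup.lift g w ∈ Subgroup.closure X := by
    obtain ⟨m, -, hm⟩ := sol (fun _ => 1) (fun _ => Set.univ) (fun _ => Set.infinite_univ)
      (fun _ _ _ _ _ _ _ _ => by simp)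
    rw [hdev1, one_mul, mul_eq_one_iff_eq_inv] at hm
    rw [hm]
    exact Subgroup.inv_mem _ (∏ i, c i (m i)).2
  have hfin := abelian_core (Q := Additive (Subgroup.closure X))
    (fun i m => Additive.ofMul (c i m)) (Additive.ofMul ⟨FreeGroup.lift g w, h0⟩) ?_ ?_
  · have h1 : (⟨FreeGroup.lift g w, h0⟩ : Subgroup.closure X) = 1 := hfin
    exact congrArg Subtype.val h1
  · intro J hJ
    obtain ⟨m, hm, hm2⟩ := sol (fun _ => 1) J hJ (fun _ _ _ _ _ _ _ _ => by simp)
    refine ⟨m, hm, ?_⟩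
    rw [hdev1, one_mul] at hm2
    have h3 : (⟨FreeGroup.lift g w, h0⟩ : Subgroup.closure X) * ∏ i, c i (m i) = 1 :=
      Subtype.ext hm2
    have h4 := congrArg Additive.ofMul h3
    rw [ofMul_mul, ofMul_prod, ofMul_one] at h4
    exact h4
  · intro i0 m0 J hJ
    have hJ' : ∀ i, (J i \ {m0}).Infinite := fun i => (hJ i).sdiff (Set.finite_singleton m0)
    obtain ⟨m, hm, hm2⟩ := sol (one i0 (z i0 m0)) (fun i => J i \ {m0}) hJ' (by
      intro m hm i j t ht t' ht'
      unfold one
      split_ifs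
      · exact hzc i0 m0 j (m j) (Or.inr fun h => (hm j).2 h.symm) t ht t' ht'
      · simp)
    refine ⟨m, fun i => (hm i).1, ?_⟩
    rw [← mul_assoc] at hm2
    have h3 : (⟨FreeGroup.lift g w, h0⟩ : Subgroup.closure X) * c i0 m0 * ∏ i, c i (m i) = 1 :=
      Subtype.ext hm2
    have h4 := congrArg Additive.ofMul h3
    rw [ofMul_mul, ofMul_mul, ofMul_prod, ofMul_one] at h4
    exact h4

/-- A tuple which normalises an infinite FC-subgroup satisfies the law. -/
theorem law_of_fc {n : ℕ} (w : FreeGroup (Fin n)) (G : Type*) [Group G]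
    (hG : ∀ S : Fin n → Set G, (∀ i, (S i).Infinite) →
      ∃ s : Fin n → G, (∀ i, s i ∈ S i) ∧ FreeGroup.lift s w = 1)
    (g : Fin n → G) (N : Subgroup G) (hgN : ∀ i, g i ∈ Subgroup.normalizer (N : Set G))
    (hN : (N : Set G).Infinite)
    (hfc : ∀ x ∈ N, {c | ∃ y ∈ N, c = y * x * y⁻¹}.Finite) : FreeGroup.lift g w = 1 := by
  classical
  obtain ⟨P, hP, hPm, hPc⟩ := word_dev g w
  have hPn : ∀ t ∈ P, t ∈ Subgroup.normalizer (N : Set G) := by
    intro t ht
    have h1 : Subgroup.closure (Set.range g) ≤ Subgroup.normalizer (N : Set G) := by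
      rw [Subgroup.closure_le]
      rintro _ ⟨i, rfl⟩
      exact hgN i
    exact h1 (hP t ht)
  have hnc : ∀ r ∈ Subgroup.normalizer (N : Set G), ∀ x ∈ N, r⁻¹ * x * r ∈ N := by
    intro r hr x hx
    have h1 := (Subgroup.mem_normalizer_iff.1 (Subgroup.inv_mem _ hr) x).1 hx
    simpa using h1
  have next : ∀ s : Finset G, (∀ x ∈ s, x ∈ N) → ∃ y, y ∈ N ∧ ∀ x ∈ s, x ≠ y ∧
      ∀ t ∈ P, ∀ t' ∈ P, Commute (t⁻¹ * x * t) (t'⁻¹ * y * t') := by
    intro s hs
    -- the conjugates of `s` which matter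
    set R : Finset G := (P ×ˢ P).image (fun q => q.1 * q.2⁻¹) with hR
    set T : Set G := {c | ∃ x ∈ s, ∃ r ∈ R, ∃ y ∈ N, c = y * (r⁻¹ * x * r) * y⁻¹} with hT
    have hRN : ∀ r ∈ R, ∀ x ∈ N, r⁻¹ * x * r ∈ N := by
      intro r hr x hx
      obtain ⟨⟨t, t'⟩, htt, rfl⟩ := Finset.mem_image.1 hr
      obtain ⟨h1, h2⟩ := Finset.mem_product.1 htt
      exact hnc _ (Subgroup.mul_mem _ (hPn t h1) (Subgroup.inv_mem _ (hPn t' h2))) x hx
    have hTf : T.Finite := by
      have h1 : T ⊆ ⋃ x ∈ s, ⋃ r ∈ R, {c | ∃ y ∈ N, c = y * (r⁻¹ * x * r) * y⁻¹ ∧ x ∈ N} := by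
        rintro c ⟨x, hx, r, hr, y, hy, rfl⟩
        exact Set.mem_iUnion₂.2 ⟨x, hx, Set.mem_iUnion₂.2 ⟨r, hr, y, hy, rfl, hs x hx⟩⟩
      refine Set.Finite.subset ?_ h1
      refine Set.Finite.biUnion s.finite_toSet fun x hx => Set.Finite.biUnion R.finite_toSet fun r hr => ?_
      refine (hfc (r⁻¹ * x * r) (hRN r hr x (hs x hx))).subset ?_
      rintro c ⟨y, hy, rfl, -⟩
      exact ⟨y, hy, rfl⟩
    have hTc : ∀ r ∈ N, ∀ c ∈ T, r * c * r⁻¹ ∈ T := by
      rintro r hr c ⟨x, hx, q, hq, y, hy, rfl⟩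
      exact ⟨x, hx, q, hq, r * y, N.mul_mem hr hy, by group⟩
    have : Finite T := hTf
    have : Infinite N := hN.to_subtype
    obtain ⟨F, hFi⟩ := Finite.exists_infinite_fiber
      (fun (x : N) (c : T) => (⟨(x : G) * c * (x : G)⁻¹, hTc x x.2 c c.2⟩ : T))
    obtain ⟨x0⟩ := (inferInstance : Nonempty ((fun (x : N) (c : T) =>
      (⟨(x : G) * c * (x : G)⁻¹, hTc x x.2 c c.2⟩ : T)) ⁻¹' {F}))
    have hinf : ((fun y : ((fun (x : N) (c : T) =>
        (⟨(x : G) * c * (x : G)⁻¹, hTc x x.2 c c.2⟩ : T)) ⁻¹' {F}) => ((x0 : G))⁻¹ * (y : G)) ''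
        Set.univ).Infinite := by
      refine Set.infinite_univ.image ?_
      intro a _ b _ hab
      exact Subtype.ext (Subtype.ext (mul_left_cancel hab))
    obtain ⟨y, ⟨y0, -, rfl⟩, hys⟩ := hinf.exists_notMem_finset s
    refine ⟨_, N.mul_mem (N.inv_mem x0.1.2) y0.1.2, fun x hx => ⟨?_, fun t ht t' ht' => ?_⟩⟩
    · rintro rfl
      exact hys hx
    · have hr : t * t'⁻¹ ∈ R := Finset.mem_image.2 ⟨(t, t'), Finset.mem_product.2 ⟨ht, ht'⟩, rfl⟩
      obtain ⟨c, hc⟩ : ∃ c, c = (t * t'⁻¹)⁻¹ * x * (t * t'⁻¹) := ⟨_, rfl⟩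
      have hcT : c ∈ T := ⟨x, hx, t * t'⁻¹, hr, 1, N.one_mem, by rw [hc]; group⟩
      have h1 := congrFun ((x0.2 : _ = F).trans (y0.2 : _ = F).symm) ⟨c, hcT⟩
      have h2 : (x0 : G) * c * (x0 : G)⁻¹ = (y0 : G) * c * (y0 : G)⁻¹ := congrArg Subtype.val h1
      have h3 : (x0 : G)⁻¹ * (y0 : G) * c = c * ((x0 : G)⁻¹ * (y0 : G)) := by
        calc (x0 : G)⁻¹ * (y0 : G) * c = (x0 : G)⁻¹ * ((y0 : G) * c * (y0 : G)⁻¹) * (y0 : G) := by group
          _ = (x0 : G)⁻¹ * ((x0 : G) * c * (x0 : G)⁻¹) * (y0 : G) := by rw [h2]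
          _ = _ := by group
      show t⁻¹ * x * t * (t'⁻¹ * ((x0 : G)⁻¹ * (y0 : G)) * t') =
        t'⁻¹ * ((x0 : G)⁻¹ * (y0 : G)) * t' * (t⁻¹ * x * t)
      have e1 : t⁻¹ * x * t = t'⁻¹ * c * t' := by rw [hc]; group
      rw [e1]
      calc t'⁻¹ * c * t' * (t'⁻¹ * ((x0 : G)⁻¹ * (y0 : G)) * t') =
          t'⁻¹ * (c * ((x0 : G)⁻¹ * (y0 : G))) * t' := by group
        _ = t'⁻¹ * ((x0 : G)⁻¹ * (y0 : G) * c) * t' := by rw [h3]
        _ = _ := by group
  obtain ⟨f, hf1, hf2⟩ := exists_seq_of_forall_finset_exists (fun x : G => x ∈ N)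
    (fun x y => x ≠ y ∧ ∀ t ∈ P, ∀ t' ∈ P, Commute (t⁻¹ * x * t) (t'⁻¹ * y * t')) next
  have hne : ∀ j k, j ≠ k → f j ≠ f k := by
    intro j k h
    rcases lt_or_gt_of_ne h with h | h
    · exact (hf2 j k h).1
    · exact (hf2 k j h).1.symm
  refine law_of_seq w G hG g P hPm hPc f (fun j k h => by
    by_contra hjk
    exact hne j k hjk h) ?_
  intro j k hjk t ht t' ht'
  rcases lt_or_gt_of_ne hjk with h | h
  · exact (hf2 j k h).2 t ht t' ht'
  · exact ((hf2 k j h).2 t' ht' t ht).symm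

/-- A tuple which normalises an infinite soluble subgroup satisfies the law. -/
theorem law_of_soluble {n : ℕ} (w : FreeGroup (Fin n)) (G : Type*) [Group G]
    (hG : ∀ S : Fin n → Set G, (∀ i, (S i).Infinite) →
      ∃ s : Fin n → G, (∀ i, s i ∈ S i) ∧ FreeGroup.lift s w = 1)
    (g : Fin n → G) (N : Subgroup G) (hgN : ∀ i, g i ∈ Subgroup.normalizer (N : Set G))
    (hN : (N : Set G).Infinite) (hs : Group.IsSolvable N) : FreeGroup.lift g w = 1 := by
  classical
  obtain ⟨E, hE⟩ : ∃ E : ℕ → Subgroup G, ∀ i, E i = (derivedSeries N i).map N.subtype :=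
    ⟨_, fun _ => rfl⟩
  have hE0 : E 0 = N := by
    rw [hE, derivedSeries_zero, ← MonoidHom.range_eq_map, Subgroup.range_subtype]
  have hEs : ∀ i, E (i + 1) = ⁅E i, E i⁆ := by
    intro i
    rw [hE, hE, derivedSeries_succ, Subgroup.map_commutator]
  have hEn : ∀ i, ∀ r ∈ Subgroup.normalizer (N : Set G),
      (E i).map (MulAut.conj r).toMonoidHom = E i := by
    intro i
    induction i with
    | zero =>
      intro r hr
      rw [hE0]
      ext x
      rw [Subgroup.mem_map]
      constructor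
      · rintro ⟨y, hy, rfl⟩
        exact (Subgroup.mem_normalizer_iff.1 hr y).1 hy
      · intro hx
        refine ⟨r⁻¹ * x * r, ?_, ?_⟩
        · have h1 := (Subgroup.mem_normalizer_iff.1 (Subgroup.inv_mem _ hr) x).1 hx
          simpa using h1
        · show r * (r⁻¹ * x * r) * r⁻¹ = x
          group
    | succ i ih =>
      intro r hr
      rw [hEs, Subgroup.map_commutator, ih r hr]
  have hex : ∃ i, ((E i : Subgroup G) : Set G).Finite := by
    obtain ⟨k, hk⟩ := hs.solvable
    refine ⟨k, ?_⟩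
    rw [hE, hk, Subgroup.map_bot, Subgroup.coe_bot]
    exact Set.finite_singleton 1
  obtain ⟨i, hi1, hi2⟩ : ∃ i, ((E i : Subgroup G) : Set G).Infinite ∧
      ((E (i + 1) : Subgroup G) : Set G).Finite := by
    by_contra hcon
    push Not at hcon
    have h1 : ∀ i, ((E i : Subgroup G) : Set G).Infinite := by
      intro i
      induction i with
      | zero =>
        rw [hE0]
        exact hN
      | succ i ih => exact hcon i ih
    obtain ⟨k, hk⟩ := hex
    exact h1 k hk
  refine law_of_fc w G hG g (E i) (fun j => ?_) hi1 ?_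
  · rw [Subgroup.mem_normalizer_iff]
    intro x
    have h1 := hEn i (g j) (hgN j)
    constructor
    · intro hx
      rw [← h1]
      exact ⟨x, hx, rfl⟩
    · intro hx
      have hx' : g j * x * (g j)⁻¹ ∈ E i := hx
      rw [← h1] at hx'
      obtain ⟨y, hy, hy2⟩ := hx'
      have h2 : g j * y * (g j)⁻¹ = g j * x * (g j)⁻¹ := hy2
      have h3 : y = x := mul_left_cancel (mul_right_cancel h2)
      rw [← h3]
      exact hy
  · intro x hx
    refine (hi2.image (fun c => c * x)).subset ?_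
    rintro c ⟨y, hy, rfl⟩
    refine ⟨y * x * y⁻¹ * x⁻¹, ?_, by group⟩
    rw [hEs]
    exact Subgroup.commutator_mem_commutator hy hx

end Pool.Agent.FCW
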