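import Pool.Agent.FCW.Normal

/-!
Reduction of counterexamples to the infinite-subset version of a group law.
-/

set_option autoImplicit false

universe u

namespace Pool.Agent.FCW

/-- Any `n` infinite subsets contain representatives which satisfy `w = 1`: the class `V(w*)`. -/
def Star {n : ℕ} (w : FreeGroup (Fin n)) (G : Type u) [Group G] : Prop :=
  ∀ S : Fin n → Set G, (∀ i, (S i).Infinite) →
    ∃ s : Fin n → G, (∀ i, s i ∈ S i) ∧ FreeGroup.lift s w = 1

/-- Any `n` infinite subsets contain representatives which generate a subgroup satisfying the law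
`w = 1`: the class `V(w#)`. -/
def Sharp {n : ℕ} (w : FreeGroup (Fin n)) (G : Type u) [Group G] : Prop :=
  ∀ S : Fin n → Set G, (∀ i, (S i).Infinite) →
    ∃ s : Fin n → G, (∀ i, s i ∈ S i) ∧
      ∀ h : Fin n → G, (∀ i, h i ∈ Subgroup.closure (Set.range s)) → FreeGroup.lift h w = 1

/-- `w = 1` is a law of `G`. -/
def Law {n : ℕ} (w : FreeGroup (Fin n)) (G : Type u) [Group G] : Prop :=
  ∀ g : Fin n → G, FreeGroup.lift g w = 1

/-- The verbal subgroup: generated by the values of `w`. -/
def verbal {n : ℕ} (w : FreeGroup (Fin n)) (G : Type u) [Group G] : Subgroup G :=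
  Subgroup.closure {x | ∃ g : Fin n → G, x = FreeGroup.lift g w}

theorem hom_lift {n : ℕ} (w : FreeGroup (Fin n)) {G H : Type*} [Group G] [Group H] (f : G →* H)
    (g : Fin n → G) : f (FreeGroup.lift g w) = FreeGroup.lift (fun i => f (g i)) w := by
  have h : f.comp (FreeGroup.lift g) = FreeGroup.lift (fun i => f (g i)) :=
    FreeGroup.ext_hom _ _ fun i => by simp
  exact DFunLike.congr_fun h w

variable {n : ℕ} {w : FreeGroup (Fin n)}

theorem law_iff {G : Type u} [Group G] : Law w G ↔ verbal w G = ⊥ := by
  constructor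
  · intro h
    rw [eq_bot_iff]
    unfold verbal
    rw [Subgroup.closure_le]
    rintro x ⟨g, rfl⟩
    exact h g
  · intro h g
    have h1 : FreeGroup.lift g w ∈ verbal w G := Subgroup.subset_closure ⟨g, rfl⟩
    rw [h] at h1
    exact h1

theorem verbal_le_iff {G : Type u} [Group G] (N : Subgroup G) :
    verbal w G ≤ N ↔ ∀ g : Fin n → G, FreeGroup.lift g w ∈ N := by
  unfold verbal
  rw [Subgroup.closure_le]
  constructor
  · intro h g
    exact h ⟨g, rfl⟩
  · rintro h x ⟨g, rfl⟩
    exact h g

instance verbal_char {G : Type u} [Group G] : (verbal w G).Characteristic := by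
  rw [Subgroup.characteristic_iff_le_comap]
  intro φ
  rw [verbal_le_iff]
  intro g
  rw [Subgroup.mem_comap]
  have h1 := hom_lift w φ.toMonoidHom g
  rw [h1]
  exact Subgroup.subset_closure ⟨_, rfl⟩

/-- The FC-centre. -/
def fcc (G : Type u) [Group G] : Subgroup G where
  carrier := {x | (conjugatesOf x).Finite}
  one_mem' := by
    show (conjugatesOf (1 : G)).Finite
    have : conjugatesOf (1 : G) ⊆ {1} := by
      intro c hc
      obtain ⟨r, hr⟩ := isConj_iff.1 (hc : IsConj (1 : G) c)
      simpa using hr.symm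
    exact (Set.finite_singleton 1).subset this
  inv_mem' := by
    intro x hx
    have h1 : (conjugatesOf (1 : G)).Finite := by
      have : conjugatesOf (1 : G) ⊆ {1} := by
        intro c hc
        obtain ⟨r, hr⟩ := isConj_iff.1 (hc : IsConj (1 : G) c)
        simpa using hr.symm
      exact (Set.finite_singleton 1).subset this
    have h2 := fc_inv_mul (x := x) (y := 1) hx h1
    simpa using h2
  mul_mem' := by
    intro x y hx hy
    have h1 : (conjugatesOf (1 : G)).Finite := by
      have : conjugatesOf (1 : G) ⊆ {1} := by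
        intro c hc
        obtain ⟨r, hr⟩ := isConj_iff.1 (hc : IsConj (1 : G) c)
        simpa using hr.symm
      exact (Set.finite_singleton 1).subset this
    have h2 := fc_inv_mul (x := x) (y := 1) hx h1
    rw [mul_one] at h2
    have h3 := fc_inv_mul (x := x⁻¹) (y := y) h2 hy
    rwa [inv_inv] at h3

theorem mem_fcc {G : Type u} [Group G] (x : G) : x ∈ fcc G ↔ (conjugatesOf x).Finite := Iff.rfl

instance fcc_char {G : Type u} [Group G] : (fcc G).Characteristic := by
  rw [Subgroup.characteristic_iff_le_comap]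
  intro φ x hx
  rw [Subgroup.mem_comap, mem_fcc]
  refine (Set.Finite.image φ ((mem_fcc x).1 hx)).subset ?_
  intro c hc
  obtain ⟨r, hr⟩ := isConj_iff.1 (hc : IsConj (φ.toMonoidHom x) c)
  refine ⟨φ.symm r * x * (φ.symm r)⁻¹, (isConj_iff.2 ⟨_, rfl⟩ : IsConj x _), ?_⟩
  rw [← hr]
  simp

/-- A finite normal subgroup is in the FC-centre. -/
theorem le_fcc {G : Type u} [Group G] (N : Subgroup G) [N.Normal] (hN : (N : Set G).Finite) :
    N ≤ fcc G := by
  intro x hx
  rw [mem_fcc]
  refine hN.subset ?_
  intro c hc
  obtain ⟨r, hr⟩ := isConj_iff.1 (hc : IsConj x c)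
  rw [← hr]
  exact Subgroup.Normal.conj_mem inferInstance x hx r

theorem fcc_finite {G : Type u} [Group G] (hG : Star w G) (h : ¬ Law w G) :
    ((fcc G : Subgroup G) : Set G).Finite := by
  by_contra hcon
  exact h fun g => law_of_infinite_fc w G hG hcon g

/-- An infinite normal subgroup contains the verbal subgroup. -/
theorem verbal_le {G : Type u} [Group G] (hG : Star w G) (N : Subgroup G) [N.Normal]
    (hN : (N : Set G).Infinite) : verbal w G ≤ N := by
  rw [verbal_le_iff]
  intro g
  obtain ⟨s, hs, hw⟩ := hG (fun i => (fun x => g i * x) '' (N : Set G))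
    (fun i => hN.image (fun _ _ _ _ h => mul_left_cancel h))
  choose x hx hx2 using hs
  have h1 : (QuotientGroup.mk' N) (FreeGroup.lift g w) = 1 := by
    rw [hom_lift]
    have : (fun i => (QuotientGroup.mk' N) (g i)) = fun i => (QuotientGroup.mk' N) (s i) := by
      funext i
      rw [← hx2 i]
      simp only [map_mul]
      have h2 : (QuotientGroup.mk' N) (x i) = 1 := (QuotientGroup.eq_one_iff _).2 (hx i)
      rw [h2, mul_one]
    rw [this, ← hom_lift, hw, map_one]
  exact (QuotientGroup.eq_one_iff _).1 h1

/-- A class of groups closed under subgroups and quotients, contained in `V(w*)`. -/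
structure IsClass (w : FreeGroup (Fin n)) (P : ∀ (G : Type u) [Group G], Prop) : Prop where
  star : ∀ (G : Type u) [Group G], P G → Star w G
  sub : ∀ (G : Type u) [Group G] (H : Subgroup G), P G → P H
  quot : ∀ (G : Type u) [Group G] (N : Subgroup G) [N.Normal], P G → P (G ⧸ N)

theorem star_class : IsClass.{u} w (fun G _ => Star w G) where
  star := fun _ _ h => h
  sub := by
    intro G _ H hG S hS
    obtain ⟨s, hs, hw⟩ := hG (fun i => Subtype.val '' S i) (fun i =>
      (hS i).image Subtype.val_injective.injOn)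
    choose t ht ht2 using hs
    refine ⟨t, ht, ?_⟩
    have h1 := hom_lift w H.subtype t
    have h2 : (fun i => H.subtype (t i)) = s := funext ht2
    rw [h2, hw] at h1
    exact Subtype.val_injective h1
  quot := by
    intro G _ N _ hG S hS
    obtain ⟨s, hs, hw⟩ := hG (fun i => QuotientGroup.mk' N ⁻¹' S i) (fun i =>
      (hS i).preimage (by
        intro x _
        exact QuotientGroup.mk'_surjective N x))
    refine ⟨fun i => QuotientGroup.mk' N (s i), hs, ?_⟩
    rw [← hom_lift, hw, map_one]

theorem sharp_class : IsClass.{u} w (fun G _ => Sharp w G) where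
  star := by
    intro G _ hG S hS
    obtain ⟨s, hs, hw⟩ := hG S hS
    exact ⟨s, hs, hw s fun i => Subgroup.subset_closure ⟨i, rfl⟩⟩
  sub := by
    intro G _ H hG S hS
    obtain ⟨s, hs, hw⟩ := hG (fun i => Subtype.val '' S i) (fun i =>
      (hS i).image Subtype.val_injective.injOn)
    choose t ht ht2 using hs
    refine ⟨t, ht, fun h hh => ?_⟩
    have h2 : (fun i => H.subtype (t i)) = s := funext ht2
    have h1 := hw (fun i => H.subtype (h i)) (fun i => by
      have h3 : H.subtype (h i) ∈ (Subgroup.closure (Set.range t)).map H.subtype :=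
        ⟨h i, hh i, rfl⟩
      rw [MonoidHom.map_closure, ← Set.range_comp] at h3
      rw [← h2]
      exact h3)
    rw [← hom_lift] at h1
    exact Subtype.val_injective h1
  quot := by
    intro G _ N _ hG S hS
    obtain ⟨s, hs, hw⟩ := hG (fun i => QuotientGroup.mk' N ⁻¹' S i) (fun i =>
      (hS i).preimage (by
        intro x _
        exact QuotientGroup.mk'_surjective N x))
    refine ⟨fun i => QuotientGroup.mk' N (s i), hs, fun h hh => ?_⟩
    have h3 : ∀ i, ∃ k ∈ Subgroup.closure (Set.range s), QuotientGroup.mk' N k = h i := by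
      intro i
      have h4 := hh i
      have h5 : Set.range (fun i => QuotientGroup.mk' N (s i)) = QuotientGroup.mk' N '' Set.range s := by
        rw [← Set.range_comp]
        rfl
      rw [h5, ← MonoidHom.map_closure] at h4
      exact h4
    choose k hk hk2 using h3
    have h6 : h = fun i => QuotientGroup.mk' N (k i) := (funext hk2).symm
    rw [h6, ← hom_lift, hw k hk, map_one]

theorem verbal_ne_bot {G : Type u} [Group G] (h : ¬ Law w G) : verbal w G ≠ ⊥ :=
  fun h1 => h (law_iff.2 h1)

/-- The centraliser of a finite normal subgroup has finite index. -/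
theorem centralizer_finiteIndex {G : Type u} [Group G] (N : Subgroup G) [N.Normal]
    (hN : (N : Set G).Finite) : (Subgroup.centralizer (N : Set G)).FiniteIndex := by
  have : Finite N := hN
  have h1 : (MulAut.conjNormal (H := N) : G →* MulAut N).ker ≤ Subgroup.centralizer (N : Set G) := by
    intro x hx
    rw [MonoidHom.mem_ker] at hx
    rw [Subgroup.mem_centralizer_iff]
    intro y hy
    have h2 := congrArg (fun φ : MulAut N => ((φ ⟨y, hy⟩ : N) : G)) hx
    simp only [MulAut.conjNormal_apply, MulAut.one_apply] at h2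
    exact (mul_inv_eq_iff_eq_mul.1 h2).symm
  have : Finite (MulAut N) := inferInstance
  have h3 : (MulAut.conjNormal (H := N) : G →* MulAut N).ker.FiniteIndex :=
    Subgroup.finiteIndex_ker _
  exact Subgroup.finiteIndex_of_le h1

theorem infinite_of_finiteIndex {G : Type u} [Group G] [Infinite G] (H : Subgroup G)
    (h : H.FiniteIndex) : (H : Set G).Infinite := by
  intro hf
  have : Finite H := hf
  have : Finite (G ⧸ H) := inferInstance
  exact not_finite_iff_infinite.2 ‹Infinite G› (Finite.of_equiv _ (Subgroup.groupEquivQuotientProdSubgroup (s := H)).symm)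

/-- The centraliser of the verbal subgroup. -/
def cen {n : ℕ} (w : FreeGroup (Fin n)) (G : Type u) [Group G] : Subgroup G :=
  Subgroup.centralizer (verbal w G : Set G)

/-- If the verbal subgroup is finite, it is abelian, and its centraliser satisfies the law or has a
finite central non-trivial verbal subgroup. -/
theorem shape_finite (G : Type u) [Group G] [Infinite G] (hG : Star w G)
    (hf : Finite (verbal w G)) :
    (cen w G).FiniteIndex ∧ verbal w G ≤ cen w G ∧
    Finite (verbal w (cen w G)) ∧ verbal w (cen w G) ≤ Subgroup.center (cen w G) := by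
  have hf' : ((verbal w G : Subgroup G) : Set G).Finite := hf
  have hC := centralizer_finiteIndex (verbal w G) hf'
  have hCi := infinite_of_finiteIndex _ hC
  have hle : verbal w G ≤ Subgroup.centralizer (verbal w G : Set G) := by
    have : (Subgroup.centralizer (verbal w G : Set G)).Normal := inferInstance
    exact verbal_le hG _ hCi
  unfold cen
  obtain ⟨C, hCd⟩ : ∃ C, C = Subgroup.centralizer (verbal w G : Set G) := ⟨_, rfl⟩
  rw [← hCd] at hCi hle hC ⊢
  have hsub : (verbal w C).map C.subtype ≤ verbal w G := by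
    rw [Subgroup.map_le_iff_le_comap, verbal_le_iff]
    intro g
    rw [Subgroup.mem_comap, hom_lift]
    exact Subgroup.subset_closure ⟨_, rfl⟩
  have hcen : verbal w C ≤ Subgroup.center C := by
    intro x hx
    rw [Subgroup.mem_center_iff]
    intro y
    have h5 : (x : G) ∈ verbal w G := hsub ⟨x, hx, rfl⟩
    have h6 : (y : G) ∈ Subgroup.centralizer (verbal w G : Set G) := hCd ▸ y.2
    have h7 := Subgroup.mem_centralizer_iff.1 h6 _ h5
    exact Subtype.ext h7.symm
  have hfin : ((verbal w C : Subgroup C) : Set C).Finite := by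
    refine Set.Finite.of_finite_image (f := Subtype.val) (hf'.subset ?_) Subtype.val_injective.injOn
    rintro _ ⟨x, hx, rfl⟩
    exact hsub ⟨x, hx, rfl⟩
  exact ⟨hC, hle, hfin, hcen⟩

/-- If the FC-centre is trivial, the verbal subgroup is the least non-trivial normal subgroup, and it
satisfies the law or is simple. -/
theorem shape_fcc (G : Type u) [Group G] (hG : Star w G) (h3 : ¬ Law w G) (hF : fcc G = ⊥) :
    Infinite (verbal w G) ∧ cen w G = ⊥ ∧ ⁅verbal w G, verbal w G⁆ = verbal w G ∧
    (∀ N : Subgroup G, N.Normal → N ≠ ⊥ → verbal w G ≤ N) ∧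
    (Law w (verbal w G) ∨ (IsSimpleGroup (verbal w G) ∧ ¬ Law w (verbal w G))) := by
  have hinf : ∀ N : Subgroup G, N.Normal → N ≠ ⊥ → (N : Set G).Infinite := by
    intro N hN hne hfin
    exact hne (eq_bot_iff.2 (hF ▸ le_fcc N hfin))
  have hmin : ∀ N : Subgroup G, N.Normal → N ≠ ⊥ → verbal w G ≤ N := fun N hN hne =>
    verbal_le hG N (hinf N hN hne)
  have hVi : Infinite (verbal w G) :=
    (hinf (verbal w G) inferInstance (verbal_ne_bot h3)).to_subtype
  have hnab : ¬ verbal w G ≤ cen w G := by
    intro hab
    refine h3 fun g => law_of_fc w G hG g (verbal w G) (fun i => ?_)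
      (hinf (verbal w G) inferInstance (verbal_ne_bot h3)) fun x hx => ?_
    · rw [Subgroup.normalizer_eq_top]
      trivial
    · refine (Set.finite_singleton x).subset ?_
      rintro c ⟨y, hy, rfl⟩
      have h5 : x * y = y * x := Subgroup.mem_centralizer_iff.1 (hab hy) x hx
      rw [← h5]
      simp
  have hcb : cen w G = ⊥ := by
    by_contra hne
    have : (cen w G).Normal := by
      unfold cen
      infer_instance
    exact hnab (hmin _ this hne)
  have hcomm : ⁅verbal w G, verbal w G⁆ = verbal w G := by
    refine le_antisymm (Subgroup.commutator_le_left _ _) (hmin _ inferInstance fun hb => ?_)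
    exact hnab (Subgroup.commutator_eq_bot_iff_le_centralizer.1 hb)
  refine ⟨hVi, hcb, hcomm, hmin, ?_⟩
  by_cases h4 : Law w (verbal w G)
  · exact Or.inl h4
  · right
    obtain ⟨V, hV⟩ : ∃ V, V = verbal w G := ⟨_, rfl⟩
    have hVn : V.Normal := by
      rw [hV]
      infer_instance
    rw [← hV] at h4 hVi hmin ⊢
    have hPV : Star w V := star_class.sub G V hG
    have hchar : ∀ K : Subgroup V, K.Characteristic → K ≠ ⊥ → K = ⊤ := by
      intro K hK hne
      have h5 : (K.map V.subtype).Normal := ConjAct.normal_of_characteristic_of_normal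
      have h6 : K.map V.subtype ≠ ⊥ := by
        intro h7
        exact hne ((Subgroup.map_eq_bot_iff_of_injective K V.subtype_injective).1 h7)
      have h7 := hmin _ h5 h6
      rw [eq_top_iff]
      intro x _
      obtain ⟨y, hy, hy2⟩ := h7 x.2
      have : y = x := Subtype.val_injective hy2
      rw [← this]
      exact hy
    have hF2 : fcc V = ⊥ := by
      by_contra hne
      have h5 := hchar (fcc V) inferInstance hne
      have h6 := fcc_finite hPV h4
      rw [h5] at h6
      have : (Set.univ : Set V).Finite := h6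
      exact Set.infinite_univ this
    have hV2 : verbal w V = ⊤ := hchar _ inferInstance (verbal_ne_bot h4)
    refine ⟨?_, h4⟩
    have : Nontrivial V := inferInstance
    refine ⟨fun N hN => ?_⟩
    by_cases hne : N = ⊥
    · exact Or.inl hne
    · right
      have h5 : (N : Set V).Infinite := by
        intro hfin
        exact hne (eq_bot_iff.2 (hF2 ▸ le_fcc N hfin))
      have h6 := verbal_le hPV N h5
      rw [hV2] at h6
      exact eq_top_iff.2 h6

/-- The quotient by a finite FC-centre has trivial FC-centre. -/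
theorem fcc_quot (G : Type u) [Group G] (hFf : ((fcc G : Subgroup G) : Set G).Finite) :
    fcc (G ⧸ fcc G) = ⊥ := by
  rw [eq_bot_iff]
  intro y hy
  obtain ⟨x, rfl⟩ := QuotientGroup.mk'_surjective (fcc G) y
  have h5 : (conjugatesOf (QuotientGroup.mk' (fcc G) x)).Finite := hy
  have h6 : (conjugatesOf x).Finite := by
    have h7 : (QuotientGroup.mk' (fcc G) ⁻¹' conjugatesOf (QuotientGroup.mk' (fcc G) x)).Finite := by
      refine h5.preimage' fun b _ => ?_
      obtain ⟨a, rfl⟩ := QuotientGroup.mk'_surjective (fcc G) b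
      refine (hFf.image (fun c => a * c)).subset ?_
      intro c hc
      have hc' : QuotientGroup.mk' (fcc G) c = QuotientGroup.mk' (fcc G) a := hc
      refine ⟨a⁻¹ * c, ?_, by group⟩
      exact QuotientGroup.eq.1 hc'.symm
    refine h7.subset ?_
    intro c hc
    obtain ⟨r, hr⟩ := isConj_iff.1 (hc : IsConj x c)
    show IsConj _ _
    refine isConj_iff.2 ⟨QuotientGroup.mk' (fcc G) r, ?_⟩
    rw [← hr]
    simp only [map_mul, map_inv]
  exact (QuotientGroup.eq_one_iff x).2 h6

theorem quot_infinite (G : Type u) [Group G] [Infinite G]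
    (hFf : ((fcc G : Subgroup G) : Set G).Finite) : Infinite (G ⧸ fcc G) := by
  have hfin : Finite (fcc G) := hFf
  by_contra hcon
  have : Finite (G ⧸ fcc G) := not_infinite_iff_finite.1 hcon
  exact not_finite_iff_infinite.2 ‹Infinite G›
    (Finite.of_equiv _ (Subgroup.groupEquivQuotientProdSubgroup (s := fcc G)).symm)

theorem quot_law (G : Type u) [Group G] (hFf : ((fcc G : Subgroup G) : Set G).Finite)
    (hf : ((verbal w G : Subgroup G) : Set G).Infinite) : ¬ Law w (G ⧸ fcc G) := by
  intro hl
  refine hf (hFf.subset ?_)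
  have : verbal w G ≤ fcc G := by
    rw [verbal_le_iff]
    intro g
    have h4 := hl (fun i => QuotientGroup.mk' (fcc G) (g i))
    rw [← hom_lift] at h4
    exact (QuotientGroup.eq_one_iff _).1 h4
  exact this

/-- Case A: the verbal subgroup is finite and abelian. -/
def CaseA (w : FreeGroup (Fin n)) (G : Type u) [Group G] : Prop :=
  Finite (verbal w G) ∧ (cen w G).FiniteIndex ∧ verbal w G ≤ cen w G ∧
    Finite (verbal w (cen w G)) ∧ verbal w (cen w G) ≤ Subgroup.center (cen w G)

/-- Case B: trivial FC-centre, the verbal subgroup is the least non-trivial normal subgroup, it is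
infinite, and it satisfies the law or is simple. -/
def CaseB (w : FreeGroup (Fin n)) (G : Type u) [Group G] : Prop :=
  fcc G = ⊥ ∧ ¬ Law w G ∧ Infinite (verbal w G) ∧ cen w G = ⊥ ∧
    ⁅verbal w G, verbal w G⁆ = verbal w G ∧
    (∀ N : Subgroup G, N.Normal → N ≠ ⊥ → verbal w G ≤ N) ∧
    (Law w (verbal w G) ∨ (IsSimpleGroup (verbal w G) ∧ ¬ Law w (verbal w G)))

/-- The shape of a counterexample. -/
theorem shape (G : Type u) [Group G] [Infinite G] (hG : Star w G) (h : ¬ Law w G) :
    ((fcc G : Subgroup G) : Set G).Finite ∧ (CaseA w G ∨ CaseB w (G ⧸ fcc G)) := by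
  have hFf := fcc_finite hG h
  refine ⟨hFf, ?_⟩
  by_cases hf : ((verbal w G : Subgroup G) : Set G).Finite
  · exact Or.inl ⟨hf, shape_finite G hG hf⟩
  · right
    have hl := quot_law (w := w) G hFf hf
    have hF := fcc_quot G hFf
    exact ⟨hF, hl, shape_fcc (G ⧸ fcc G) (star_class.quot G (fcc G) hG) hl hF⟩

/-- The kinds of reduced counterexamples. -/
def Kind (w : FreeGroup (Fin n)) (H : Type u) [Group H] : Prop :=
  IsSimpleGroup H ∨
  (Finite (verbal w H) ∧ verbal w H ≤ Subgroup.center H) ∨
  (Finite (verbal w H) ∧ (cen w H).FiniteIndex ∧ verbal w H ≤ cen w H ∧ Law w (cen w H)) ∨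
  (fcc H = ⊥ ∧ Infinite (verbal w H) ∧ Law w (verbal w H) ∧ cen w H = ⊥ ∧
    ⁅verbal w H, verbal w H⁆ = verbal w H ∧
    ∀ N : Subgroup H, N.Normal → N ≠ ⊥ → verbal w H ≤ N)

/-- Reduction of counterexamples in a class closed under subgroups and quotients. -/
theorem reduce {P : ∀ (G : Type u) [Group G], Prop} (hP : IsClass w P) (G : Type u) [Group G]
    [hinf : Infinite G] (hG : P G) (h : ¬ Law w G) :
    ∃ (H : Type u) (_ : Group H), Infinite H ∧ P H ∧ ¬ Law w H ∧ Kind w H := by
  obtain ⟨hFf, h1 | h1⟩ := shape G (hP.star G hG) h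
  · obtain ⟨ha, hb, hc, hd, he⟩ := h1
    by_cases h4 : Law w (Subgroup.centralizer (verbal w G : Set G))
    · exact ⟨G, inferInstance, hinf, hG, h, Or.inr (Or.inr (Or.inl ⟨ha, hb, hc, h4⟩))⟩
    · exact ⟨Subgroup.centralizer (verbal w G : Set G), inferInstance,
        (infinite_of_finiteIndex _ hb).to_subtype, hP.sub G _ hG, h4, Or.inr (Or.inl ⟨hd, he⟩)⟩
  · obtain ⟨ha, hb, hc, hc1, hc2, hd, he⟩ := h1
    rcases he with he | he
    · exact ⟨G ⧸ fcc G, inferInstance, quot_infinite G hFf, hP.quot G _ hG, hb,
        Or.inr (Or.inr (Or.inr ⟨ha, hc, he, hc1, hc2, hd⟩))⟩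
    · exact ⟨verbal w (G ⧸ fcc G), inferInstance, hc, hP.sub _ _ (hP.quot G _ hG), he.2,
        Or.inl he.1⟩

end Pool.Agent.FCW
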