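import Pool.Agent.FCW.Reduce
import Pool.Agent.ZZD.Main

/-!
Tuples which normalise an infinite subgroup `N`: the value of `w` lies in each subgroup of finite
index of `N`.
-/

set_option autoImplicit false

universe u

open scoped Pointwise

namespace Pool.Agent.FCW

variable {n : ℕ} {w : FreeGroup (Fin n)}

/-- The normal case. -/
theorem mem_of_relIndex_normal {G : Type u} [Group G] (hG : Star w G) (g : Fin n → G)
    (N : Subgroup G) [hNn : N.Normal] (hN : (N : Set G).Infinite) (U : Subgroup G)
    (hU : U.relIndex N ≠ 0) : FreeGroup.lift g w ∈ U := by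
  classical
  by_contra hcon
  obtain ⟨i, A, hA, hfin⟩ := Pool.Agent.ZZD.box w hG (U : Set G) U.one_mem g hcon
  choose P hP1 hP2 hP3 using fun a : Fin n → G => word_dev (Function.update a i (g i)) w
  obtain ⟨T, hT⟩ : ∃ T : Finset G, T = A.biUnion P := ⟨_, rfl⟩
  obtain ⟨V, hV⟩ : ∃ V : Subgroup G, V = ⨅ t : T, (ConjAct.toConjAct (t : G)) • U := ⟨_, rfl⟩
  have hVr : V.relIndex N ≠ 0 := by
    rw [hV]
    refine Subgroup.relIndex_iInf_ne_zero fun t => ?_
    have h1 := Subgroup.relIndex_pointwise_smul (ConjAct.toConjAct (t : G)) U N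
    rw [hNn.conjAct] at h1
    rw [h1]
    exact hU
  have hNi : Infinite N := hN.to_subtype
  have hVi : ((V.subgroupOf N : Subgroup N) : Set N).Infinite :=
    infinite_of_finiteIndex _ ⟨hVr⟩
  refine (hVi.image (f := fun u : N => g i * (u : G)) ?_) (hfin.subset ?_)
  · intro a _ b _ hab
    exact Subtype.ext (mul_left_cancel hab)
  · rintro _ ⟨u, hu, rfl⟩
    intro a ha
    have hu' : (u : G) ∈ V := hu
    have e1 : Function.update a i (g i * (u : G)) =
        fun j => Function.update a i (g i) j * Function.update (fun _ => (1 : G)) i (u : G) j := by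
      funext j
      by_cases hj : j = i
      · subst hj
        simp
      · simp [hj]
    have h2 := hP2 a (Function.update (fun _ => (1 : G)) i (u : G))
    have h3 : Subgroup.closure (cjs (P a) (Function.update (fun _ => (1 : G)) i (u : G))) ≤ U := by
      rw [Subgroup.closure_le]
      rintro _ ⟨t, ht, j, rfl⟩
      by_cases hj : j = i
      · subst hj
        have h4 : t ∈ T := by
          rw [hT]
          exact Finset.mem_biUnion.2 ⟨a, ha, ht⟩
        rw [hV, Subgroup.mem_iInf] at hu'
        have h5 := hu' ⟨t, h4⟩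
        rw [Subgroup.mem_pointwise_smul_iff_inv_smul_mem] at h5
        have h6 : (ConjAct.toConjAct t)⁻¹ • (u : G) = t⁻¹ * u * t := by
          rw [← ConjAct.toConjAct_inv, ConjAct.toConjAct_smul, inv_inv]
        rw [h6] at h5
        simpa using h5
      · simp [hj, U.one_mem]
    have h7 := h3 h2
    intro h8
    refine hA a ha ?_
    have h8' : FreeGroup.lift (Function.update a i (g i * (u : G))) w ∈ U := h8
    rw [e1] at h8'
    have h9 : FreeGroup.lift (fun j => Function.update a i (g i) j *
        Function.update (fun _ => (1 : G)) i (u : G) j) w =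
        FreeGroup.lift (Function.update a i (g i)) w *
          dev (Function.update a i (g i)) w (Function.update (fun _ => (1 : G)) i (u : G)) := by
      unfold dev
      group
    rw [h9] at h8'
    exact (Subgroup.mul_mem_cancel_right U h7).1 h8'

/-- The value of `w` at a tuple which normalises an infinite subgroup `N` lies in each subgroup of
finite index of `N`. -/
theorem mem_of_relIndex {G : Type u} [Group G] (hG : Star w G) (g : Fin n → G)
    (N : Subgroup G) (hgN : ∀ i, g i ∈ Subgroup.normalizer (N : Set G))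
    (hN : (N : Set G).Infinite) (U : Subgroup G) (hU : U.relIndex N ≠ 0) :
    FreeGroup.lift g w ∈ U := by
  obtain ⟨M, hM⟩ : ∃ M : Subgroup G, M = Subgroup.normalizer (N : Set G) := ⟨_, rfl⟩
  have hNM : N ≤ M := by
    rw [hM]
    exact Subgroup.le_normalizer
  have hn : (N.subgroupOf M).Normal := by
    rw [hM]
    infer_instance
  have hSM : Star w M := star_class.sub G M hG
  have h1 : ((N.subgroupOf M : Subgroup M) : Set M).Infinite := by
    have h2 : (N : Set G) = Subtype.val '' ((N.subgroupOf M : Subgroup M) : Set M) := by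
      ext x
      constructor
      · intro hx
        exact ⟨⟨x, hNM hx⟩, hx, rfl⟩
      · rintro ⟨y, hy, rfl⟩
        exact hy
    intro hf
    exact hN (h2 ▸ hf.image _)
  have h3 : (U.subgroupOf M).relIndex (N.subgroupOf M) ≠ 0 := by
    rw [Subgroup.relIndex_subgroupOf hNM]
    exact hU
  have h4 := mem_of_relIndex_normal (w := w) hSM (fun i => (⟨g i, hM ▸ hgN i⟩ : M))
    (N.subgroupOf M) h1 (U.subgroupOf M) h3
  have h5 := hom_lift w M.subtype (fun i => (⟨g i, hM ▸ hgN i⟩ : M))
  have h6 : M.subtype (FreeGroup.lift (fun i => (⟨g i, hM ▸ hgN i⟩ : M)) w) ∈ U := h4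
  rw [h5] at h6
  exact h6

end Pool.Agent.FCW
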