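import Pool.Agent.FCW.Least

/-!
Varieties in which each infinite group has an infinite characteristic subgroup which is soluble or FC.
-/

set_option autoImplicit false

universe u

namespace Pool.Agent.FCW

variable {n : ℕ} {w : FreeGroup (Fin n)}

/-- Each infinite group satisfying `w = 1` has an infinite characteristic subgroup which is soluble or
an FC-group. -/
def Tame {n : ℕ} (w : FreeGroup (Fin n)) : Prop :=
  ∀ (K : Type u) [Group K] [Infinite K], Law w K → ∃ L : Subgroup K, L.Characteristic ∧ Infinite L ∧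
    (Group.IsSolvable L ∨ ∀ x ∈ L, {c | ∃ y ∈ L, c = y * x * y⁻¹}.Finite)

theorem law_of_normal {H : Type u} [Group H] (hH : Star w H) (N : Subgroup H) [N.Normal]
    (hN : Infinite N)
    (h : Group.IsSolvable N ∨ ∀ x ∈ N, {c | ∃ y ∈ N, c = y * x * y⁻¹}.Finite) : Law w H := by
  intro g
  have h1 : ∀ i, g i ∈ Subgroup.normalizer (N : Set H) := fun i => by
    rw [Subgroup.normalizer_eq_top]
    trivial
  rcases h with h | h
  · exact law_of_soluble w H hH g N h1 (Set.infinite_coe_iff.1 hN) h
  · exact law_of_fc w H hH g N h1 (Set.infinite_coe_iff.1 hN) h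

theorem tame_normal (hV : Tame.{u} w) {H : Type u} [Group H] (hH : Star w H) (N : Subgroup H)
    [N.Normal] (hN : Infinite N) (hl : Law w N) : Law w H := by
  obtain ⟨L, hLc, hLi, hL⟩ := hV N hl
  have h1 : (L.map N.subtype).Normal := ConjAct.normal_of_characteristic_of_normal
  have e : L ≃* L.map N.subtype := L.equivMapOfInjective N.subtype N.subtype_injective
  have h2 : Infinite (L.map N.subtype) := Infinite.of_injective e e.injective
  refine law_of_normal hH (L.map N.subtype) h2 ?_
  rcases hL with hL | hL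
  · left
    exact Group.isSolvable_of_surjective (f := e.toMonoidHom) e.surjective
  · right
    rintro _ ⟨x, hx, rfl⟩
    refine ((hL x hx).image N.subtype).subset ?_
    rintro c ⟨_, ⟨y, hy, rfl⟩, rfl⟩
    exact ⟨y * x * y⁻¹, ⟨y, hy, rfl⟩, by simp⟩

theorem tame_central (hV : Tame.{u} w) {H : Type u} [Group H] (hH : Star w H) (A : Subgroup H)
    [A.Normal] (hAf : Finite A) (hAc : A ≤ Subgroup.center H) (hQ : Infinite (H ⧸ A))
    (hl : Law w (H ⧸ A)) : Law w H := by
  obtain ⟨L, hLc, hLi, hL⟩ := hV (H ⧸ A) hl
  have hAL : A ≤ L.comap (QuotientGroup.mk' A) := by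
    intro x hx
    rw [Subgroup.mem_comap]
    have : QuotientGroup.mk' A x = 1 := (QuotientGroup.eq_one_iff x).2 hx
    rw [this]
    exact L.one_mem
  obtain ⟨f, hf⟩ : ∃ f : (L.comap (QuotientGroup.mk' A)) →* L,
    f = (QuotientGroup.mk' A).subgroupComap L := ⟨_, rfl⟩
  have hfs : Function.Surjective f := by
    rw [hf]
    exact (QuotientGroup.mk' A).subgroupComap_surjective_of_surjective L
      (QuotientGroup.mk'_surjective A)
  have h2 : Infinite (L.comap (QuotientGroup.mk' A)) := Infinite.of_surjective f hfs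
  refine law_of_normal hH (L.comap (QuotientGroup.mk' A)) h2 ?_
  rcases hL with hL | hL
  · left
    have hA1 : Group.IsSolvable A := Group.isSolvable_of_comm fun a b =>
      Subtype.ext (Subgroup.mem_center_iff.1 (hAc b.2) a)
    refine Group.isSolvable_of_ker_le_range (Subgroup.inclusion hAL) f ?_
    intro x hx
    have h3 : QuotientGroup.mk' A (x : H) = 1 := by
      have h4 : f x = 1 := hx
      rw [hf] at h4
      exact congrArg (fun t : L => (t : H ⧸ A)) h4
    exact ⟨⟨(x : H), (QuotientGroup.eq_one_iff _).1 h3⟩, rfl⟩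
  · right
    intro x hx
    have h4 := hL (QuotientGroup.mk' A x) hx
    have h5 : (QuotientGroup.mk' A ⁻¹' {c | ∃ y ∈ L, c = y * QuotientGroup.mk' A x * y⁻¹}).Finite := by
      refine h4.preimage' fun b _ => ?_
      obtain ⟨a, rfl⟩ := QuotientGroup.mk'_surjective A b
      have hAf' : (A : Set H).Finite := hAf
      refine (hAf'.image (fun c => a * c)).subset ?_
      intro c hc
      have hc' : QuotientGroup.mk' A c = QuotientGroup.mk' A a := hc
      refine ⟨a⁻¹ * c, ?_, by group⟩
      exact QuotientGroup.eq.1 hc'.symm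
    refine h5.subset ?_
    rintro c ⟨y, hy, rfl⟩
    exact ⟨QuotientGroup.mk' A y, hy, by simp only [map_mul, map_inv]⟩

theorem law_quot {H : Type u} [Group H] (A : Subgroup H) [A.Normal] (h : verbal w H ≤ A) :
    Law w (H ⧸ A) := by
  intro g
  choose g' hg' using fun i => QuotientGroup.mk'_surjective A (g i)
  have h6 : g = fun i => QuotientGroup.mk' A (g' i) := (funext hg').symm
  rw [h6, ← hom_lift]
  exact (QuotientGroup.eq_one_iff _).2 (h (Subgroup.subset_closure ⟨g', rfl⟩))

/-- In a tame variety the reduced counterexample is simple. -/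
theorem simple_of_tame (hV : Tame.{u} w) {H : Type u} [Group H] (hi : Infinite H) (hH : Star w H)
    (h : ¬ Law w H) (hk : Kind4 w H) : IsSimpleGroup H := by
  rcases hk with h1 | ⟨h1, h2⟩ | ⟨h1, h2⟩ | ⟨h1, h2⟩
  · exact h1
  · have hf : Finite (verbal w H) := Nat.finite_of_card_ne_zero h1.ne_zero
    exact absurd (tame_central hV hH (verbal w H) hf h2 (infinite_quot _ hf)
      (law_quot _ le_rfl)) h
  · have hn : (cen w H).Normal := by
      unfold cen
      infer_instance
    exact absurd (tame_normal hV hH (cen w H)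
      (infinite_of_finiteIndex _ h1.2.2.1).to_subtype h2) h
  · exact absurd (tame_normal hV hH (verbal w H) h1.1 h2) h

end Pool.Agent.FCW
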